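import Pool.Agent.MP_6e64bc_an.H80.Green

open MeasureTheory Set Real Complex Filter Topology Function Metric
open scoped ComplexConjugate

namespace Pool.Agent.MP_6e64bc_an.H80

theorem isOpen_image {f : ℂ → ℂ} (hf : DifferentiableOn ℂ f (ball 0 1)) (hi : InjOn f (ball 0 1))
    {s : Set ℂ} (hs : s ⊆ ball 0 1) (ho : IsOpen s) : IsOpen (f '' s) := by
  rcases (hf.analyticOnNhd isOpen_ball).is_constant_or_isOpen
    (convex_ball (0 : ℂ) 1).isPreconnected with ⟨w, hw⟩ | h
  · have h0 : (0 : ℂ) ∈ ball (0 : ℂ) 1 := mem_ball_self one_pos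
    have h1 : (1 / 2 : ℂ) ∈ ball (0 : ℂ) 1 := by simp; norm_num
    have := hi h0 h1 ((hw _ h0).trans (hw _ h1).symm)
    norm_num at this
  · exact h s hs ho

theorem not_const {f : ℂ → ℂ} {z c : ℂ} {s : Set ℂ} (hs : s ∈ 𝓝 z) (hi : InjOn f s) :
    ¬∀ᶠ w in 𝓝 z, f w = c := fun h => by
  have h1 : ∀ᶠ w in 𝓝[≠] z, f w = c ∧ w ∈ s := nhdsWithin_le_nhds (h.and hs)
  obtain ⟨w, ⟨a, b⟩, c⟩ := (h1.and self_mem_nhdsWithin).exists
  exact c (hi b (mem_of_mem_nhds hs) (a.trans h.self_of_nhds.symm))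

theorem deriv_ne {f : ℂ → ℂ} (hf : DifferentiableOn ℂ f (ball 0 1)) (hi : InjOn f (ball 0 1))
    {z : ℂ} (hz : z ∈ ball (0 : ℂ) 1) : deriv f z ≠ 0 := by
  intro hd
  have hb := isOpen_ball.mem_nhds hz
  have han := hf.analyticAt hb
  obtain ⟨m, g, hg, hg0, he⟩ := (han.sub (analyticAt_const (v := f z))).exists_eventuallyEq_pow_smul_nonzero_iff.2
    fun h => not_const (c := f z) hb hi (h.mono fun w hw => by simpa [sub_eq_zero] using hw)
  simp only [Pi.sub_apply, smul_eq_mul] at he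
  have hm0 : m ≠ 0 := by
    rintro rfl
    have := he.self_of_nhds
    simp at this; exact hg0 this.symm
  have hm1 : m ≠ 1 := by
    rintro rfl
    have h1 : HasDerivAt (fun w => (w - z) ^ 1 * g w) (g z) z := by
      simp only [pow_one]
      exact (((hasDerivAt_id' z).sub_const z).fun_mul hg.differentiableAt.hasDerivAt).congr_deriv
        (by simp)
    have h2 := (han.differentiableAt.hasDerivAt.sub_const (f z)).unique
      (h1.congr_of_eventuallyEq he)
    exact hg0 (h2.symm.trans hd)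
  set φ : ℂ → ℂ := fun w => (w - z) * cexp (log (g w / g z) / m)
  have hφ : AnalyticAt ℂ φ z := by
    refine (analyticAt_id.sub analyticAt_const).mul (AnalyticAt.cexp (AnalyticAt.div_const ?_))
    exact (hg.div_const).clog (by simp [div_self hg0])
  have hmc : (m : ℂ) ≠ 0 := by exact_mod_cast hm0
  have he2 : ∀ᶠ w in 𝓝 z, f w = f z + φ w ^ m * g z ∧ w ∈ ball (0 : ℂ) 1 := by
    filter_upwards [he, hg.continuousAt.eventually_ne hg0, hb] with w a b c
    refine ⟨?_, c⟩
    simp only [φ, mul_pow, ← Complex.exp_nat_mul, mul_div_cancel₀ _ hmc]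
    rw [Complex.exp_log (div_ne_zero b hg0), mul_assoc, div_mul_cancel₀ _ hg0, ← a]; ring
  rcases hφ.eventually_constant_or_nhds_le_map_nhds with h | h
  · refine not_const (c := f z + φ z ^ m * g z) hb hi ?_
    filter_upwards [h, he2] with w a b
    rw [b.1, a]
  have h0 : φ z = 0 := by simp [φ]
  rw [h0] at h
  obtain ⟨ε, hε, hs⟩ := Metric.mem_nhds_iff.1 (h (image_mem_map he2))
  have hp := Complex.isPrimitiveRoot_exp m hm0
  obtain ⟨w1, a1, b1⟩ := hs (a := (ε / 2 : ℝ)) (by simp [abs_of_pos hε, hε])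
  obtain ⟨w2, a2, b2⟩ := hs (a := (ε / 2 : ℝ) * cexp (2 * π * I / m)) (by
    simp [hp.norm'_eq_one hm0, abs_of_pos hε, hε])
  have : w1 = w2 := hi a1.2 a2.2 (by rw [a1.1, a2.1, b1, b2, mul_pow, hp.pow_eq_one, mul_one])
  rw [this, b2] at b1
  have hε' : ((ε / 2 : ℝ) : ℂ) ≠ 0 := by exact_mod_cast (half_pos hε).ne'
  exact hp.ne_one (by omega) (mul_left_cancel₀ hε' (b1.trans (mul_one _).symm))

theorem area_principle {f : ℂ → ℂ} (hf : DifferentiableOn ℂ f (ball 0 1))
    (hi : InjOn f (ball 0 1)) {r ρ : ℝ} (h0 : 0 ≤ r) (hr : r < ρ) (h1 : ρ < 1) {h : ℂ → ℂ}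
    (hh : DifferentiableOn ℂ h (f '' closedBall 0 r)ᶜ)
    (hz : ∀ ε > 0, ∃ R : ℝ, ∀ w : ℂ, R ≤ ‖w‖ → ‖h w‖ ≤ ε) :
    (∫ α in (-π)..π, conj (h (f (ρ * ee α))) *
      (deriv h (f (ρ * ee α)) * (deriv f (ρ * ee α) * ee α * ρ * I))).im ≤ 0 := by
  have hρ : 0 ≤ ρ := h0.trans hr.le
  have hK : IsCompact (f '' closedBall 0 r) := (isCompact_closedBall 0 r).image_of_continuousOn
    (hf.continuousOn.mono (closedBall_subset_ball (hr.trans h1)))
  have hO := isOpen_image hf hi (ball_subset_ball h1.le) isOpen_ball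
  have hKO : f '' closedBall 0 r ⊆ f '' ball 0 ρ := image_mono (closedBall_subset_ball hr)
  obtain ⟨χ, c0, c1, -⟩ := exists_contMDiffMap_zero_one_nhds_of_isClosed (n := 2)
    (modelWithCornersSelf ℝ ℂ) hK.isClosed hO.isClosed_compl (disjoint_compl_right_iff_subset.2 hKO)
  have hχ : ContDiff ℝ 2 χ := χ.contMDiff.contDiff
  set H : ℂ → ℂ := fun w => (χ w : ℂ) * h w
  have hA : ∀ p ∉ f '' closedBall 0 r, AnalyticAt ℂ h p := fun p hp =>
    hh.analyticAt (hK.isClosed.isOpen_compl.mem_nhds hp)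
  have hH : ContDiff ℝ 2 H := contDiff_iff_contDiffAt.2 fun p => by
    by_cases hp : p ∈ f '' closedBall 0 r
    · refine (contDiffAt_const (c := (0 : ℂ))).congr_of_eventuallyEq ?_
      filter_upwards [nhds_le_nhdsSet hp c0] with w hw
      simp [H, show χ w = 0 from hw]
    · exact (ofRealCLM.contDiff.comp hχ).contDiffAt.mul ((hA p hp).contDiffAt.restrict_scalars ℝ)
  have hD : ∀ p ∉ f '' ball 0 ρ, H p = h p ∧ ∀ v, fderiv ℝ H p v = deriv h p * v := by
    intro p hp
    have he : H =ᶠ[𝓝 p] h := by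
      filter_upwards [nhds_le_nhdsSet (show p ∈ (f '' ball 0 ρ)ᶜ from hp) c1] with w hw
      simp [H, show χ w = 1 from hw]
    refine ⟨he.self_of_nhds, fun v => ?_⟩
    rw [he.fderiv_eq, ((hA p fun a => hp (hKO a)).differentiableAt.hasDerivAt.hasFDerivAt.restrictScalars
      ℝ).fderiv]
    simp [mul_comm]
  have hJ : Continuous fun w => jac (fderiv ℝ H w) := by
    have := hH.continuous_fderiv (by norm_num)
    unfold jac; fun_prop
  have hb : ∀ α, f (ρ * ee α) ∉ f '' ball 0 ρ := by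
    rintro α ⟨w, hw, e⟩
    have := hi (ball_subset_ball h1.le hw) (by simpa [abs_of_nonneg hρ] using h1) e
    rw [this] at hw
    simp [abs_of_nonneg hρ] at hw
  have g1 := green hf hi hρ h1 hH
  simp only [(hD _ (hb _)).1, (hD _ (hb _)).2] at g1
  rw [← g1]
  obtain ⟨M, hM⟩ := ((isCompact_closedBall (0 : ℂ) ρ).image_of_continuousOn
    (hf.continuousOn.mono (closedBall_subset_ball h1))).isBounded.subset_ball 0
  have hM' : f '' ball 0 ρ ⊆ ball 0 M := (image_mono ball_subset_closedBall).trans hM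
  refine le_of_forall_pos_le_add fun η hη => ?_
  obtain ⟨ε, hε, hεη⟩ : ∃ ε > 0, ε * (ε * 2) * (2 * π) ≤ η := by
    refine ⟨min 1 (η / (4 * π)), by positivity, ?_⟩
    calc _ ≤ 1 * (η / (4 * π) * 2) * (2 * π) := by
          gcongr
          exacts [min_le_left _ _, min_le_right _ _]
      _ = η := by field_simp; ring
  obtain ⟨R0, hR0⟩ := hz ε hε
  obtain ⟨R, hR, hR1, hR2⟩ : ∃ R : ℝ, 0 < R ∧ R0 ≤ R / 2 ∧ M ≤ R / 2 :=
    ⟨2 * max 1 (max R0 M), by positivity, by simp, by simp⟩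
  have hRc : (2 * R : ℂ) ≠ 0 := by exact_mod_cast (by positivity : (2 * R : ℝ) ≠ 0)
  have g2 := green (f := fun z => 2 * R * z) (ρ := 1 / 2) (by fun_prop)
    (fun a _ b _ e => mul_left_cancel₀ hRc e) (by norm_num) (by norm_num) hH
  have e1 : (fun z : ℂ => 2 * R * z) '' ball 0 (1 / 2) = ball 0 R := by
    have := smul_ball hRc (0 : ℂ) (1 / 2)
    simp only [smul_zero, norm_mul, Complex.norm_real, Real.norm_eq_abs, abs_of_pos hR,
      Complex.norm_ofNat] at this
    rw [show 2 * R * (1 / 2) = R by ring] at this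
    exact this
  have e2 : ∀ α, (2 * R * (((1 / 2 : ℝ) : ℂ) * ee α) : ℂ) = R * ee α := fun α => by
    push_cast; ring
  have hn : ∀ w : ℂ, R / 2 ≤ ‖w‖ → w ∉ f '' ball 0 ρ := fun w hw a => by
    have := hM' a
    simp at this; linarith
  have hnR : ∀ α, ‖(R * ee α : ℂ)‖ = R := fun α => by simp [abs_of_pos hR]
  have hb2 : ∀ α, (R * ee α : ℂ) ∉ f '' ball 0 ρ := fun α => hn _ (by rw [hnR]; linarith)
  have e3 : ∀ z, deriv (fun z : ℂ => 2 * R * z) z = 2 * R := fun z => by simp
  simp only [e1, e2, e3, (hD _ (hb2 _)).1, (hD _ (hb2 _)).2] at g2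
  have hle : ∫ w in f '' ball 0 ρ, jac (fderiv ℝ H w) ≤ ∫ w in ball 0 R, jac (fderiv ℝ H w) := by
    have := setIntegral_sdiff (μ := volume) hO.measurableSet
      ((hJ.continuousOn.integrableOn_compact (isCompact_closedBall (0 : ℂ) R)).mono_set
        ball_subset_closedBall) (hM'.trans (ball_subset_ball (by linarith)))
    rw [← sub_nonneg, ← this]
    refine setIntegral_nonneg (measurableSet_ball.diff hO.measurableSet) fun w hw => ?_
    simp only [jac, (hD w hw.2).2]
    simp; nlinarith [sq_nonneg (deriv h w).re, sq_nonneg (deriv h w).im]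
  rw [zero_add]
  refine (mul_le_mul_of_nonneg_left hle zero_le_two).trans (g2.le.trans ?_)
  refine (le_abs_self _).trans ((Complex.abs_im_le_norm _).trans ?_)
  refine (intervalIntegral.norm_integral_le_of_norm_le_const (C := ε * (ε * 2))
    fun α _ => ?_).trans ?_
  · have hs : ∀ w ∈ closedBall (R * ee α : ℂ) (R / 2), R / 2 ≤ ‖w‖ := fun w hw => by
      have := norm_sub_norm_le (R * ee α : ℂ) w
      rw [mem_closedBall, dist_comm, dist_eq_norm] at hw
      rw [hnR] at this; linarith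
    have hd := Complex.norm_deriv_le_of_forall_mem_sphere_norm_le (c := R * ee α) (C := ε)
      (half_pos hR) (DifferentiableOn.diffContOnCl (f := h) fun w hw =>
        (hA w fun a => hn w (hs w (closure_ball_subset_closedBall hw))
          (hKO a)).differentiableAt.differentiableWithinAt)
      (fun w hw => hR0 w (hR1.trans (hs w (sphere_subset_closedBall hw))))
    have h3 := hR0 (R * ee α) (by rw [hnR]; linarith)
    rw [le_div_iff₀ (half_pos hR)] at hd
    simp only [norm_mul, norm_ee, Complex.norm_real,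
      Real.norm_eq_abs, abs_of_pos hR, Complex.norm_ofNat, RCLike.norm_conj, norm_I, mul_one]
    rw [abs_of_pos (by norm_num : (0 : ℝ) < 1 / 2)]
    exact mul_le_mul h3 (by linarith) (by positivity) hε.le
  · rwa [show π - -π = 2 * π by ring, abs_of_pos (by positivity)]

end Pool.Agent.MP_6e64bc_an.H80
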