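import Mathlib

open MeasureTheory Set Real Complex Filter Topology Function

namespace Pool.Agent.MP_6e64bc_an.H80

/-- normalised Lebesgue measure on one period -/
noncomputable def mu : Measure ℝ := (ENNReal.ofReal (2 * π))⁻¹ • volume.restrict (Ioc (-π) π)

instance : IsProbabilityMeasure mu := ⟨by
  have h : (0 : ℝ) < 2 * π := by positivity
  simp only [mu, Measure.smul_apply, Measure.restrict_apply MeasurableSet.univ, univ_inter,
    Real.volume_Ioc, smul_eq_mul]
  rw [show π - -π = 2 * π by ring]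
  exact ENNReal.inv_mul_cancel (by simpa using h) ENNReal.ofReal_ne_top⟩

variable {E : Type} [NormedAddCommGroup E] [NormedSpace ℝ E]

theorem mu_int (F : ℝ → E) : ∫ x, F x ∂mu = (2 * π)⁻¹ • ∫ x in (-π)..π, F x := by
  have h : (0 : ℝ) < 2 * π := by positivity
  rw [mu, integral_smul_measure, intervalIntegral.integral_of_le (by linarith [pi_pos])]
  rw [ENNReal.toReal_inv, ENNReal.toReal_ofReal h.le]

theorem ae_mu : ∀ᵐ x ∂mu, x ∈ Ioo (-π) π ∧ x ≠ 0 := by
  refine Measure.ae_smul_measure ?_ _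
  have h1 : ∀ᵐ x ∂(volume.restrict (Ioc (-π) π)), x ∈ Ioc (-π) π :=
    ae_restrict_mem measurableSet_Ioc
  have h2 : ∀ᵐ x ∂(volume.restrict (Ioc (-π) π)), x ≠ π :=
    ae_restrict_of_ae (Measure.ae_ne volume π)
  have h3 : ∀ᵐ x ∂(volume.restrict (Ioc (-π) π)), x ≠ 0 :=
    ae_restrict_of_ae (Measure.ae_ne volume 0)
  filter_upwards [h1, h2, h3] with x a b c
  exact ⟨⟨a.1, lt_of_le_of_ne a.2 b⟩, c⟩

theorem ae_Icc : ∀ᵐ x ∂mu, x ∈ Icc (-π) π := ae_mu.mono fun _ h => Ioo_subset_Icc_self h.1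

omit [NormedSpace ℝ E] in
theorem intg_of {X : Type} [TopologicalSpace X] [MeasurableSpace X] [OpensMeasurableSpace X]
    [SecondCountableTopology X] (ν : Measure X) [IsFiniteMeasure ν] {K : Set X} (hK : IsCompact K)
    (h : ∀ᵐ x ∂ν, x ∈ K) {F : X → E} (hF : Continuous F) : Integrable F ν := by
  obtain ⟨C, hC⟩ := hK.exists_bound_of_continuousOn hF.continuousOn
  exact Integrable.of_bound hF.aestronglyMeasurable C (h.mono hC)

omit [NormedSpace ℝ E] in
theorem intg {F : ℝ → E} (hF : Continuous F) : Integrable F mu :=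
  intg_of mu isCompact_Icc ae_Icc hF

theorem ae_prod : ∀ᵐ p ∂(mu.prod mu), p ∈ Icc (-π) π ×ˢ Icc (-π) π := by
  have h1 := (Measure.quasiMeasurePreserving_fst (μ := mu) (ν := mu)).ae ae_Icc
  have h2 := (Measure.quasiMeasurePreserving_snd (μ := mu) (ν := mu)).ae ae_Icc
  filter_upwards [h1, h2] with p a b using ⟨a, b⟩

omit [NormedSpace ℝ E] in
theorem intg2 {F : ℝ × ℝ → E} (hF : Continuous F) : Integrable F (mu.prod mu) :=
  intg_of _ (isCompact_Icc.prod isCompact_Icc) ae_prod hF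

theorem swap {F : ℝ → ℝ → E} (hF : Continuous (uncurry F)) :
    ∫ x, ∫ y, F x y ∂mu ∂mu = ∫ y, ∫ x, F x y ∂mu ∂mu :=
  integral_integral_swap (intg2 hF)

theorem cont_par {X : Type} [TopologicalSpace X] {F : X → ℝ → E} (hF : Continuous (uncurry F)) :
    Continuous fun x => ∫ y, F x y ∂mu := by
  simp only [mu_int]
  exact (intervalIntegral.continuous_parametric_intervalIntegral_of_continuous' hF _ _).const_smul _

theorem shift {F : ℝ → E} (hF : Periodic F (2 * π)) (s : ℝ) :
    ∫ σ, F (s - σ) ∂mu = ∫ x, F x ∂mu := by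
  rw [mu_int, mu_int, intervalIntegral.integral_comp_sub_left]
  have := hF.intervalIntegral_add_eq (s - π) (-π)
  rw [show s - π + 2 * π = s - -π by ring, show -π + 2 * π = π by ring] at this
  rw [this]

theorem shift' {F : ℝ → E} (hF : Periodic F (2 * π)) :
    ∫ x, F x ∂mu = (2 * π)⁻¹ • ∫ x in (0 : ℝ)..2 * π, F x := by
  rw [mu_int]
  have := hF.intervalIntegral_add_eq (-π) 0
  rw [zero_add, show -π + 2 * π = π by ring] at this
  rw [this]

/-- the character of the circle -/
noncomputable def ee (x : ℝ) : ℂ := cexp (x * I)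

@[fun_prop] theorem cont_ee : Continuous ee := by unfold ee; fun_prop

@[simp] theorem norm_ee (x : ℝ) : ‖ee x‖ = 1 := by simp [ee]

theorem ee_ne (x : ℝ) : ee x ≠ 0 := Complex.exp_ne_zero _

theorem ee_add (x y : ℝ) : ee (x + y) = ee x * ee y := by
  simp [ee, ← Complex.exp_add, add_mul]

@[simp] theorem ee_zero : ee 0 = 1 := by simp [ee]

theorem ee_neg (x : ℝ) : ee (-x) = (starRingEnd ℂ) (ee x) := by
  simp [ee, ← Complex.exp_conj]

theorem ee_pow (x : ℝ) (n : ℕ) : ee x ^ n = ee (n * x) := by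
  simp [ee, ← Complex.exp_nat_mul, mul_assoc]

theorem ee_int (n : ℤ) : ee (n * (2 * π)) = 1 := by
  simp only [ee]; push_cast
  rw [show (n : ℂ) * (2 * π) * I = n * (2 * π * I) by ring]
  exact Complex.exp_int_mul_two_pi_mul_I n

theorem ee_per (n : ℤ) (x : ℝ) : ee (n * (x + 2 * π)) = ee (n * x) := by
  rw [mul_add, ee_add, ee_int, mul_one]

theorem ee_two_pi (x : ℝ) : ee (x + 2 * π) = ee x := by simpa using ee_per 1 x

theorem hasDerivAt_ee (x : ℝ) : HasDerivAt ee (ee x * I) x := by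
  have h : HasDerivAt (fun x : ℝ => (x : ℂ) * I) I x := by
    simpa using (Complex.ofRealCLM.hasDerivAt (x := x)).mul_const I
  exact h.cexp

theorem int_ee {n : ℤ} (hn : n ≠ 0) : ∫ x, ee (n * x) ∂mu = 0 := by
  rw [mu_int]
  have hn' : (n : ℂ) * I ≠ 0 := mul_ne_zero (by exact_mod_cast hn) I_ne_zero
  have h : ∀ x ∈ uIcc (-π) π, HasDerivAt (fun x : ℝ => ee (n * x) / (n * I)) (ee (n * x)) x := by
    intro x _
    have h1 := ((hasDerivAt_ee (n * x)).scomp x ((hasDerivAt_id x).const_mul (n : ℝ))).div_const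
      ((n : ℂ) * I)
    refine h1.congr_deriv ?_
    simp only [mul_one, real_smul, ofReal_intCast]
    rw [div_eq_iff hn']; ring
  rw [intervalIntegral.integral_eq_sub_of_hasDerivAt h
    (Continuous.intervalIntegrable (by fun_prop) _ _)]
  have := ee_per n (-π)
  rw [show -π + 2 * π = π by ring] at this
  simp [this]

end Pool.Agent.MP_6e64bc_an.H80
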