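import Pool.Agent.MP_6e64bc_an.H80.Fejer

open MeasureTheory Set Real Complex Filter Topology Function Metric
open scoped ComplexConjugate

namespace Pool.Agent.MP_6e64bc_an.H80

/-- lift of an orientation preserving diffeomorphism of the circle -/
structure Diff (θ θ' : ℝ → ℝ) : Prop where
  hd : ∀ s, HasDerivAt θ (θ' s) s
  hc : Continuous θ'
  hp : ∀ s, 0 < θ' s
  per : ∀ s, θ (s + 2 * π) = θ s + 2 * π

/-- clamp to one period -/
noncomputable def cl (σ : ℝ) : ℝ := max (-π) (min π σ)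

/-- mean slope -/
noncomputable def mm (θ' : ℝ → ℝ) (s σ : ℝ) : ℝ := ∫ u in (0 : ℝ)..1, θ' (s - u * σ)

/-- chord distortion -/
noncomputable def Phi (θ' : ℝ → ℝ) (s σ : ℝ) : ℝ :=
  mm θ' s (cl σ) * sinc (cl σ * mm θ' s (cl σ) / 2) / sinc (cl σ / 2)

/-- weight of the negative frequencies -/
noncomputable def sw (j : ℤ) : ℝ := 1 - j.sign

theorem cl_mem (σ : ℝ) : cl σ ∈ Icc (-π) π :=
  ⟨le_max_left _ _, max_le (by linarith [pi_pos]) (min_le_left _ _)⟩

theorem cl_eq {σ : ℝ} (h : σ ∈ Icc (-π) π) : cl σ = σ := by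
  rw [cl, min_eq_right h.2, max_eq_right h.1]

theorem sinc_pos {x : ℝ} (h : x ∈ Ioo (-π) π) : 0 < sinc x := by
  rcases lt_trichotomy x 0 with e | e | e
  · rw [← sinc_neg, sinc_of_ne_zero (by linarith)]
    exact div_pos (Real.sin_pos_of_pos_of_lt_pi (by linarith) (by linarith [h.1])) (by linarith)
  · simp [e]
  · rw [sinc_of_ne_zero e.ne']
    exact div_pos (Real.sin_pos_of_pos_of_lt_pi e h.2) e

theorem sw_nonneg (j : ℤ) : 0 ≤ sw j := by
  have : (j.sign : ℝ) ≤ 1 := by
    rcases lt_trichotomy j 0 with e | e | e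
    · simp [Int.sign_eq_neg_one_of_neg e]
    · simp [e]
    · simp [Int.sign_eq_one_of_pos e]
  rw [sw]; linarith

theorem log_one_sub {x : ℝ} (h0 : 0 < x) (h1 : x < 2 * π) :
    log (1 - ee x) = Real.log (2 * Real.sin (x / 2)) + ((x - π) / 2 : ℝ) * I := by
  have hs : 0 < 2 * Real.sin (x / 2) := by
    have := Real.sin_pos_of_pos_of_lt_pi (x := x / 2) (by linarith) (by linarith)
    linarith
  have e : 1 - ee x = (2 * Real.sin (x / 2) : ℝ) * cexp (((x - π) / 2 : ℝ) * I) := by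
    have a1 := Real.cos_two_mul (x / 2)
    have a2 := Real.sin_two_mul (x / 2)
    have a3 := Real.sin_sq_add_cos_sq (x / 2)
    rw [show 2 * (x / 2) = x by ring] at a1 a2
    rw [show (x - π) / 2 = x / 2 - π / 2 by ring]
    apply Complex.ext
    · simp only [ee, sub_re, one_re, exp_ofReal_mul_I_re, re_ofReal_mul, Real.cos_sub_pi_div_two]
      linarith
    · simp only [ee, sub_im, one_im, exp_ofReal_mul_I_im, im_ofReal_mul, Real.sin_sub_pi_div_two]
      linarith
  rw [e, log_ofReal_mul hs (Complex.exp_ne_zero _), Complex.log_exp]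
  · simp; linarith
  · simp; linarith

theorem log_diff_pos {x y : ℝ} (x0 : 0 < x) (x1 : x < 2 * π) (y0 : 0 < y) (y1 : y < 2 * π) :
    log (1 - ee x) - log (1 - ee y) =
      Real.log (Real.sin (x / 2) / Real.sin (y / 2)) + ((x - y) / 2 : ℝ) * I := by
  have a := Real.sin_pos_of_pos_of_lt_pi (x := x / 2) (by linarith) (by linarith)
  have b := Real.sin_pos_of_pos_of_lt_pi (x := y / 2) (by linarith) (by linarith)
  rw [log_one_sub x0 x1, log_one_sub y0 y1, Real.log_div a.ne' b.ne',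
    Real.log_mul two_ne_zero a.ne', Real.log_mul two_ne_zero b.ne']
  push_cast; ring

theorem log_diff_neg {x y : ℝ} (x0 : x < 0) (x1 : -(2 * π) < x) (y0 : y < 0) (y1 : -(2 * π) < y) :
    log (1 - ee x) - log (1 - ee y) =
      Real.log (Real.sin (x / 2) / Real.sin (y / 2)) + ((x - y) / 2 : ℝ) * I := by
  have := log_diff_pos (x := x + 2 * π) (y := y + 2 * π) (by linarith) (by linarith) (by linarith)
    (by linarith)
  rwa [ee_two_pi, ee_two_pi, show (x + 2 * π) / 2 = x / 2 + π by ring,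
    show (y + 2 * π) / 2 = y / 2 + π by ring, Real.sin_add_pi, Real.sin_add_pi, neg_div_neg_eq,
    add_sub_add_right_eq_sub] at this

theorem Kq_tendsto {x : ℝ} (h : Real.sin (x / 2) ≠ 0) :
    Tendsto (fun q => Kq q x) (𝓝[<] 1) (𝓝 (-log (1 - ee x))) := by
  have h1 : (1 - ee x) ∈ slitPlane := Or.inl (by
    have a1 := Real.sin_sq_eq_half_sub (x / 2)
    rw [show 2 * (x / 2) = x by ring] at a1
    have := pow_pos (abs_pos.2 h) 2
    rw [sq_abs] at this
    simp only [ee, sub_re, one_re, exp_ofReal_mul_I_re]; linarith)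
  have h2 : ContinuousAt (fun q : ℝ => Kq q x) 1 :=
    (ContinuousAt.clog (by fun_prop) (by simpa using h1)).neg
  simpa [Kq] using h2.tendsto.mono_left nhdsWithin_le_nhds

theorem Kq_diff {q x y C : ℝ} (h0 : 0 ≤ q) (h1 : q < 1) (hy : Real.sin (y / 2) ≠ 0)
    (hx : 0 < Real.sin (x / 2) / Real.sin (y / 2))
    (hC : |Real.log (Real.sin (x / 2) / Real.sin (y / 2))| ≤ C) :
    ‖Kq q x - Kq q y‖ ≤ C + 2 * π := by
  refine (Complex.norm_le_abs_re_add_abs_im _).trans (add_le_add ?_ ?_)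
  · have hC0 := (abs_nonneg _).trans hC
    set Φ := Real.sin (x / 2) / Real.sin (y / 2)
    have e : Real.sin (x / 2) = Φ * Real.sin (y / 2) := (div_mul_cancel₀ _ hy).symm
    have a := norm_one_sub_sq q x
    have b := norm_one_sub_sq q y
    rw [e, mul_pow] at a
    have hq : 0 < (1 - q) ^ 2 := pow_pos (by linarith) 2
    have hb : 0 ≤ 4 * q * Real.sin (y / 2) ^ 2 := by positivity
    have pa : 0 < ‖1 - q * ee x‖ := by
      refine lt_of_le_of_ne (norm_nonneg _) fun e => ?_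
      rw [← e] at a; nlinarith [mul_nonneg hb (sq_nonneg Φ)]
    have pb : 0 < ‖1 - q * ee y‖ := by
      refine lt_of_le_of_ne (norm_nonneg _) fun e => ?_
      rw [← e] at b; nlinarith
    have hE : 1 ≤ Real.exp C := Real.one_le_exp hC0
    have hE2 : 1 ≤ Real.exp C ^ 2 := one_le_pow₀ hE
    have u1 : Φ ≤ Real.exp C := (Real.log_le_iff_le_exp hx).1 (abs_le.1 hC).2
    have u2 : 1 ≤ Real.exp C * Φ := by
      have := Real.exp_le_exp.2 (show 0 ≤ C + Real.log Φ by linarith [(abs_le.1 hC).1])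
      rwa [Real.exp_zero, Real.exp_add, Real.exp_log hx] at this
    have v1 := pow_le_pow_left₀ hx.le u1 2
    have v2 := one_le_pow₀ (n := 2) u2
    have w1 : ‖1 - q * ee x‖ ≤ Real.exp C * ‖1 - q * ee y‖ :=
      (pow_le_pow_iff_left₀ pa.le (by positivity) two_ne_zero).1 (by
        rw [mul_pow, a, b]; nlinarith)
    have w2 : ‖1 - q * ee y‖ ≤ Real.exp C * ‖1 - q * ee x‖ :=
      (pow_le_pow_iff_left₀ pb.le (by positivity) two_ne_zero).1 (by
        rw [mul_pow, a, b]; nlinarith)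
    have z1 := Real.log_le_log pa w1
    have z2 := Real.log_le_log pb w2
    rw [Real.log_mul (by positivity) pb.ne', Real.log_exp] at z1
    rw [Real.log_mul (by positivity) pa.ne', Real.log_exp] at z2
    simp only [Kq, sub_re, neg_re, log_re, abs_le]
    constructor <;> linarith
  · have a := abs_le.1 (abs_arg_le_pi (1 - q * ee x))
    have b := abs_le.1 (abs_arg_le_pi (1 - q * ee y))
    simp only [Kq, sub_im, neg_im, log_im, abs_le]
    constructor <;> linarith [a.1, a.2, b.1, b.2]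

theorem EE_nonneg {q : ℝ} (h0 : 0 ≤ q) (θ : ℝ → ℝ) (ψ : ℝ → ℂ) : 0 ≤ EE q θ ψ :=
  tsum_nonneg fun n => by positivity

theorem fm_EE {q : ℝ} (h0 : 0 ≤ q) (h1 : q < 1) {θ : ℝ → ℝ} (hθ : Continuous θ)
    (per : ∀ s, θ (s + 2 * π) = θ s + 2 * π) (w : ℤ → ℝ) (N : ℕ) :
    (fm N (fun j => w j * EE q θ (ps j)) : ℝ) =
      ∫ σ, (∫ s, Kq q (θ s - θ (s - σ)) ∂mu) * KN w N σ ∂mu := by
  have hK := cont_Kq h0 h1
  rw [← fm_fc w N (cont_par (F := fun σ s => Kq q (θ s - θ (s - σ))) (by fun_prop)), ← fm_ofReal]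
  congr 1; ext j
  rw [ofReal_mul, EE_eq h0 h1 hθ, diag_fc (F := fun s s' => Kq q (θ s - θ s')) (by fun_prop)]
  intro s x
  simp only [per, Kq]
  rw [← ee_two_pi]; congr 5; ring

theorem fm_id {q : ℝ} (h0 : 0 ≤ q) (h1 : q < 1) (N : ℕ) :
    ∫ σ, Kq q σ * KN sw N σ ∂mu = 0 := by
  have h := fm_EE h0 h1 continuous_id (fun _ => rfl) sw N
  simp only [id, sub_sub_cancel, integral_const, probReal_univ, one_smul] at h
  rw [← h]
  have : ∀ j : ℤ, sw j * EE q id (ps j) = 0 := fun j => by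
    rcases lt_or_ge 0 j with e | e
    · simp [sw, Int.sign_eq_one_of_pos e]
    · have : ∀ n : ℕ, mom id (ps j) n = 0 := fun n => by
        rw [← int_ee (n := n + 1 - j) (by omega), mom]
        congr 1; ext s
        simp only [id, ps, ← ee_add]; congr 1; push_cast; ring
      simp [EE, this]
  simp [this, fm]

namespace Diff

variable {θ θ' : ℝ → ℝ} (D : Diff θ θ')
include D

theorem cont : Continuous θ := continuous_iff_continuousAt.2 fun x => (D.hd x).continuousAt

theorem mono : StrictMono θ := strictMono_of_hasDerivAt_pos D.hd D.hp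

theorem mm_eq (s σ : ℝ) : σ * mm θ' s σ = θ s - θ (s - σ) := by
  have hc := D.hc
  have h : ∀ u ∈ uIcc (0 : ℝ) 1, HasDerivAt (fun u => -θ (s - u * σ)) (σ * θ' (s - u * σ)) u :=
    fun u _ => ((D.hd _).comp u (((hasDerivAt_id' u).mul_const σ).const_sub s)).fun_neg.congr_deriv
      (by ring)
  rw [mm, ← intervalIntegral.integral_const_mul, intervalIntegral.integral_eq_sub_of_hasDerivAt h
    (Continuous.intervalIntegrable (by fun_prop) _ _)]
  simp; ring

theorem mm_pos (s σ : ℝ) : 0 < mm θ' s σ := by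
  have hc := D.hc
  exact intervalIntegral.intervalIntegral_pos_of_pos (Continuous.intervalIntegrable (by fun_prop) _ _)
    (fun u => D.hp _) one_pos

theorem delta_lt (s : ℝ) {σ : ℝ} (h : σ ∈ Icc (-π) π) :
    θ s - θ (s - σ) ∈ Ioo (-(2 * π)) (2 * π) := by
  have a := D.mono (show s < s - σ + 2 * π by linarith [h.2, pi_pos])
  have b := D.mono (show s - σ < s + 2 * π by linarith [h.1, pi_pos])
  rw [D.per] at a b
  constructor <;> linarith

theorem Phi_pos (s σ : ℝ) : 0 < Phi θ' s σ := by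
  have h := D.delta_lt s (cl_mem σ)
  have h2 := cl_mem σ
  rw [Phi, D.mm_eq]
  exact div_pos (mul_pos (D.mm_pos _ _) (sinc_pos ⟨by linarith [h.1], by linarith [h.2]⟩))
    (sinc_pos ⟨by linarith [h2.1, pi_pos], by linarith [h2.2, pi_pos]⟩)

theorem cont_Phi : Continuous fun p : ℝ × ℝ => Phi θ' p.2 p.1 := by
  have hc := D.hc
  have h1 : Continuous cl := by unfold cl; fun_prop
  have h2 : Continuous fun p : ℝ × ℝ => mm θ' p.2 (cl p.1) :=
    intervalIntegral.continuous_parametric_intervalIntegral_of_continuous'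
      (f := fun (p : ℝ × ℝ) u => θ' (p.2 - u * cl p.1)) (by fun_prop) _ _
  have h3 := continuous_sinc
  refine Continuous.div (by fun_prop) (by fun_prop) fun p => (sinc_pos ?_).ne'
  have h2 := cl_mem p.1
  exact ⟨by linarith [h2.1, pi_pos], by linarith [h2.2, pi_pos]⟩

omit D in
theorem Phi_zero (s : ℝ) : Phi θ' s 0 = θ' s := by
  simp [Phi, cl_eq (σ := 0) ⟨by linarith [pi_pos], pi_pos.le⟩, mm]

theorem Phi_eq (s : ℝ) {σ : ℝ} (h : σ ∈ Ioo (-π) π) (h0 : σ ≠ 0) :
    Phi θ' s σ = Real.sin ((θ s - θ (s - σ)) / 2) / Real.sin (σ / 2) := by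
  have := (D.mm_pos s σ).ne'
  rw [Phi, cl_eq (Ioo_subset_Icc_self h), ← D.mm_eq, sinc_of_ne_zero (by positivity),
    sinc_of_ne_zero (by positivity)]
  field_simp

theorem int_delta (σ : ℝ) : ∫ s, (θ s - θ (s - σ) - σ) ∂mu = 0 := by
  have hc := D.cont
  have h := shift (F := fun x => θ (-x) + x) (fun x => by
    have := D.per (-(x + 2 * π))
    simp only [neg_add_rev, neg_add_cancel_comm] at this ⊢
    linarith) σ
  have h2 := shift (F := fun x => θ (-x) + x) (fun x => by
    have := D.per (-(x + 2 * π))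
    simp only [neg_add_rev, neg_add_cancel_comm] at this ⊢
    linarith) 0
  rw [← sub_eq_zero.2 (h2.trans h.symm), ← integral_sub (intg (by fun_prop)) (intg (by fun_prop))]
  congr 1; ext s; simp; ring

theorem entropy {q : ℝ} (h0 : 0 ≤ q) (h1 : q < 1) (N : ℕ) :
    fm N (fun j => sw j * EE q θ (ps j)) ≤
      ∫ σ, (∫ s, -Real.log (Phi θ' s σ) ∂mu) * FN N σ ∂mu := by
  have hc := D.cont
  have hl : Continuous fun p : ℝ × ℝ => Real.log (Phi θ' p.2 p.1) :=
    D.cont_Phi.log fun _ => (D.Phi_pos _ _).ne'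
  obtain ⟨C, hC⟩ := ((isCompact_Icc (a := -π) (b := π)).prod
    (isCompact_Icc (a := -π) (b := π))).exists_bound_of_continuousOn hl.continuousOn
  have hae : ∀ᵐ p ∂(mu.prod mu), (p.1 ∈ Ioo (-π) π ∧ p.1 ≠ 0) ∧ p ∈ Icc (-π) π ×ˢ Icc (-π) π :=
    ((Measure.quasiMeasurePreserving_fst (μ := mu) (ν := mu)).ae ae_mu).and ae_prod
  have hs : ∀ {σ : ℝ}, σ ∈ Ioo (-π) π → σ ≠ 0 → Real.sin (σ / 2) ≠ 0 := fun {σ} h h0 e =>
    h0 (by
      have := (Real.sin_eq_zero_iff_of_lt_of_lt (x := σ / 2) (by linarith [h.1, pi_pos])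
        (by linarith [h.2, pi_pos])).1 e
      linarith)
  have hev : ∀ᶠ q' in 𝓝[<] (1 : ℝ), q' ∈ Ioo q 1 := Ioo_mem_nhdsLT h1
  have hcq : ∀ q' ∈ Ioo q 1, Continuous fun p : ℝ × ℝ =>
      (Kq q' (θ p.2 - θ (p.2 - p.1)) - Kq q' p.1) * KN sw N p.1 := fun q' hq => by
    have := cont_Kq (h0.trans hq.1.le) hq.2
    fun_prop
  have hlim := tendsto_integral_filter_of_dominated_convergence (μ := mu.prod mu) (l := 𝓝[<] 1)
    (F := fun q' p => (Kq q' (θ p.2 - θ (p.2 - p.1)) - Kq q' p.1) * KN sw N p.1)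
    (f := fun p => (-(Real.log (Phi θ' p.2 p.1) : ℂ) -
      ((θ p.2 - θ (p.2 - p.1) - p.1 : ℝ) : ℂ) * (I / 2)) * KN sw N p.1)
    (fun p => (C + 2 * π) * ‖KN sw N p.1‖)
    (hev.mono fun q' hq => (hcq q' hq).aestronglyMeasurable)
    (hev.mono fun q' hq => hae.mono fun p hp => by
      rw [norm_mul]
      have e := D.Phi_eq p.2 hp.1.1 hp.1.2
      gcongr
      exact Kq_diff (h0.trans hq.1.le) hq.2 (hs hp.1.1 hp.1.2) (e ▸ D.Phi_pos _ _)
        (e ▸ hC p hp.2))
    (intg2 (by fun_prop))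
    (hae.mono fun p hp => by
      have e := D.Phi_eq p.2 hp.1.1 hp.1.2
      have d := D.delta_lt p.2 hp.2.1
      have hx : Real.sin ((θ p.2 - θ (p.2 - p.1)) / 2) ≠ 0 := fun z => by
        have := D.Phi_pos p.2 p.1
        rw [e, z, zero_div] at this; exact lt_irrefl _ this
      have e2 : log (1 - ee (θ p.2 - θ (p.2 - p.1))) - log (1 - ee p.1) =
          Real.log (Phi θ' p.2 p.1) + ((θ p.2 - θ (p.2 - p.1) - p.1) / 2 : ℝ) * I := by
        rw [e]
        rcases lt_or_gt_of_ne hp.1.2 with z | z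
        · exact log_diff_neg (sub_neg.2 (D.mono (by linarith))) d.1 z
            (by linarith [hp.1.1.1, pi_pos])
        · exact log_diff_pos (sub_pos.2 (D.mono (by linarith))) d.2 z
            (by linarith [hp.1.1.2, pi_pos])
      refine Tendsto.mul_const _ ?_
      convert (Kq_tendsto hx).sub (Kq_tendsto (hs hp.1.1 hp.1.2)) using 2
      push_cast at e2 ⊢
      linear_combination e2)
  rw [integral_prod _ (intg2 (by fun_prop))] at hlim
  have e1 : ∀ σ, ∫ s, (-(Real.log (Phi θ' s σ) : ℂ) -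
      ((θ s - θ (s - σ) - σ : ℝ) : ℂ) * (I / 2)) * KN sw N σ ∂mu =
      ((∫ s, -Real.log (Phi θ' s σ) ∂mu : ℝ) : ℂ) * KN sw N σ := fun σ => by
    have : Continuous fun s => Real.log (Phi θ' s σ) := hl.comp (f := fun s => (σ, s)) (by fun_prop)
    rw [integral_mul_const, integral_sub (intg (by fun_prop)) (intg (by fun_prop)),
      integral_mul_const, integral_complex_ofReal, D.int_delta, integral_neg, integral_neg,
      integral_complex_ofReal]
    simp
  simp only [e1] at hlim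
  have hG : Continuous fun σ => ∫ s, -Real.log (Phi θ' s σ) ∂mu :=
    cont_par (F := fun σ s => -Real.log (Phi θ' s σ)) hl.neg
  have h2 := (continuous_re.tendsto _).comp hlim
  rw [← RCLike.re_to_complex, ← integral_re (intg (by fun_prop))] at h2
  simp only [RCLike.re_to_complex, re_ofReal_mul,
    KN_re (w := sw) fun j => by simp [sw]; ring] at h2
  refine ge_of_tendsto h2 (hev.mono fun q' hq => ?_)
  have q0 := h0.trans hq.1.le
  have hK := cont_Kq q0 hq.2
  have e3 := fm_EE q0 hq.2 hc D.per sw N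
  have e4 : ∫ p : ℝ × ℝ, (Kq q' (θ p.2 - θ (p.2 - p.1)) - Kq q' p.1) * KN sw N p.1 ∂(mu.prod mu) =
      (fm N (fun j => sw j * EE q' θ (ps j)) : ℝ) := by
    have hK2 : Continuous fun σ => ∫ s, Kq q' (θ s - θ (s - σ)) ∂mu :=
      cont_par (F := fun σ s => Kq q' (θ s - θ (s - σ))) (by fun_prop)
    rw [e3, ← sub_zero (∫ σ, _ * KN sw N σ ∂mu), ← fm_id q0 hq.2 N,
      ← integral_sub (intg (by fun_prop)) (intg (by fun_prop)), integral_prod _ (intg2 (hcq q' hq))]
    congr 1; ext σ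
    simp only
    rw [integral_mul_const, integral_sub (intg (by fun_prop)) (intg (by fun_prop))]
    simp [sub_mul]
  simp only [Function.comp, e4, ofReal_re]
  refine fm_mono N fun j => mul_le_mul_of_nonneg_left ?_ (sw_nonneg j)
  refine (summable_EE h0 h1 _ _).tsum_le_tsum (fun n => ?_) (summable_EE q0 hq.2 _ _)
  have := hq.1.le
  gcongr

theorem circle {V : ℝ → ℝ → ℂ} (hV : Continuous (uncurry V)) (hp : ∀ β, Periodic (V β) (2 * π))
    {q : ℝ} (h0 : 0 ≤ q) (h1 : q < 1)
    (hG : ∀ (j : ℤ) (c : ℝ), 0 < c → ‖∫ s, ∫ s', V (θ s) (θ s') * (ps j s * ps (-j) s') ∂mu ∂mu‖ ≤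
      (c * EE q θ (ps j) + EE q θ (ps (-j)) / c) / 2)
    {τ b c : ℝ} (hτ : 0 ≤ τ) (hb : 0 ≤ b) (hc : 0 < c) (a1 : τ * c ≤ b) (a2 : τ ≤ b + 1)
    (a3 : τ / c ≤ b + 2) :
    τ * ‖∫ s, V (θ s) (θ s) ∂mu‖ ≤ b * -Real.log (1 - q) + ∫ s, -Real.log (θ' s) ∂mu := by
  have hθ := D.cont
  have hF : Continuous (uncurry fun s s' => V (θ s) (θ s')) :=
    hV.comp (f := fun p : ℝ × ℝ => (θ p.1, θ p.2)) (by fun_prop)
  have hGc : Continuous fun σ => ∫ s, V (θ s) (θ (s - σ)) ∂mu :=
    cont_par (F := fun σ s => V (θ s) (θ (s - σ)))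
      (hV.comp (f := fun p : ℝ × ℝ => (θ p.2, θ (p.2 - p.1))) (by fun_prop))
  have t1 := (fejer hGc).norm.const_mul τ
  have hl : Continuous fun σ => ∫ s, -Real.log (Phi θ' s σ) ∂mu :=
    cont_par (F := fun σ s => -Real.log (Phi θ' s σ))
      (D.cont_Phi.log fun _ => (D.Phi_pos _ _).ne').neg
  have t2 := ((continuous_re.tendsto _).comp (fejer (continuous_ofReal.comp hl))).const_add
    (b * -Real.log (1 - q))
  simp only [sub_zero, Function.comp, Phi_zero, ofReal_re] at t1 t2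
  refine le_of_tendsto_of_tendsto t1 t2 ?_
  filter_upwards [eventually_ne_atTop 0] with N hN
  have e1 := fm_fc (fun _ => 1) N hGc
  simp only [KN_one, ofReal_one, one_mul,
    ← diag_fc hF fun s x => by simp only [D.per, hp (θ s) (θ x)]] at e1
  have hcj : ∀ j : ℤ, 0 < c ^ j.sign := fun j => zpow_pos hc _
  have e2 : fm N (fun j => (c ^ j.sign * EE q θ (ps j) + EE q θ (ps (-j)) / c ^ j.sign) / 2) =
      fm N fun j => c ^ j.sign * EE q θ (ps j) := by
    have := fm_neg N fun j => c ^ j.sign * EE q θ (ps j)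
    simp only [Int.sign_neg, zpow_neg] at this
    simp only [div_eq_inv_mul, fm_mul, fm_add, this]; ring
  have e3 : fm N (fun j => EE q θ (ps j)) ≤ -Real.log (1 - q) := by
    have := fm_EE h0 h1 hθ D.per (fun _ => 1) N
    simp only [one_mul, KN_one] at this
    refine (le_abs_self _).trans ?_
    rw [← Real.norm_eq_abs, ← Complex.norm_real, this]
    refine (norm_integral_le_of_norm_le (g := fun σ => -Real.log (1 - q) * FN N σ)
      (intg (by fun_prop)) (ae_of_all _ fun σ => ?_)).trans ?_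
    · rw [norm_mul, Complex.norm_real, Real.norm_eq_abs, abs_of_nonneg (FN_nonneg N σ)]
      refine mul_le_mul_of_nonneg_right ?_ (FN_nonneg N σ)
      simpa using norm_integral_le_of_norm_le_const (μ := mu)
        (ae_of_all _ fun s => norm_Kq h0 h1 (θ s - θ (s - σ)))
    · rw [integral_const_mul, int_FN hN, mul_one]
  have e4 := D.entropy h0 h1 N
  simp only [← ofReal_mul, integral_complex_ofReal, ofReal_re]
  rw [← e1]
  calc _ ≤ τ * fm N fun j => c ^ j.sign * EE q θ (ps j) := by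
        rw [← e2]
        gcongr
        exact (norm_fm N _).trans (fm_mono N fun j => hG j _ (hcj j))
    _ ≤ fm N fun j => b * EE q θ (ps j) + sw j * EE q θ (ps j) := by
        rw [← fm_mul]
        refine fm_mono N fun j => ?_
        rw [← mul_assoc, ← add_mul]
        refine mul_le_mul_of_nonneg_right ?_ (EE_nonneg h0 _ _)
        rcases lt_trichotomy j 0 with e | e | e
        · simp only [sw, Int.sign_eq_neg_one_of_neg e, zpow_neg_one, ← div_eq_mul_inv]
          push_cast; linarith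
        · simpa [sw, e] using a2
        · simpa [sw, Int.sign_eq_one_of_pos e] using a1
    _ ≤ _ := by
        rw [fm_add, fm_mul]
        gcongr

end Diff

end Pool.Agent.MP_6e64bc_an.H80
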