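import Pool.Agent.MP_6e64bc_an.H80.Main

open MeasureTheory Set Real Complex Filter Topology Function Metric
open scoped ComplexConjugate

namespace Pool.Agent.MP_6e64bc_an.H80

theorem w_mem {r : ℝ} (h0 : 0 ≤ r) (h1 : r < 1) (β : ℝ) : (r * ee β : ℂ) ∈ ball (0 : ℂ) 1 := by
  simpa [abs_of_nonneg h0] using h1

theorem coef_le {g : ℂ → ℂ} (hg : DifferentiableOn ℂ g (ball 0 1)) {r : ℝ} (h0 : 0 < r) (h1 : r < 1)
    (k : ℕ) : ‖iteratedDeriv k g 0 / k.factorial‖ * r ^ k ≤ ∫ β, ‖g (r * ee β)‖ ∂mu := by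
  have h := (hg.mono (closedBall_subset_ball h1)).circleIntegral_one_div_sub_center_pow_smul h0 k
  have h2 := intervalIntegral.norm_integral_le_integral_norm (μ := volume) (by positivity : 0 ≤ 2 * π)
    (f := fun θ => deriv (circleMap 0 r) θ • ((1 / (circleMap 0 r θ - 0) ^ (k + 1)) • g (circleMap 0 r θ)))
  rw [circleIntegral] at h
  rw [h] at h2
  have e : ∀ θ, ‖deriv (circleMap 0 r) θ • ((1 / (circleMap 0 r θ - 0) ^ (k + 1)) •
      g (circleMap 0 r θ))‖ = ‖g (r * ee θ)‖ / r ^ k := fun θ => by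
    simp only [deriv_circleMap, circleMap, zero_add, sub_zero, smul_eq_mul, norm_mul, norm_div,
      norm_pow, norm_I, norm_one, Complex.norm_real, Real.norm_eq_abs, abs_of_pos h0,
      Complex.norm_exp_ofReal_mul_I, ee]
    field_simp; ring
  simp only [e, intervalIntegral.integral_div] at h2
  rw [shift' (fun x => by simp only [ee_two_pi]), smul_eq_mul, le_inv_mul_iff₀ (by positivity),
    ← mul_assoc, ← le_div_iff₀ (by positivity)]
  refine le_of_eq_of_le ?_ h2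
  simp [abs_of_pos pi_pos]; ring

theorem area_le {f : ℂ → ℂ} (hf : DifferentiableOn ℂ f (ball 0 1)) (hi : InjOn f (ball 0 1)) {M : ℝ}
    (hM : ∀ z ∈ ball (0 : ℂ) 1, ‖f z‖ < M) {a b c : ℝ} (h0 : 0 ≤ a) (hab : a ≤ b) (h1 : b < 1)
    (hc : ∀ r ∈ Icc a b, c ≤ ∫ α, r * ‖deriv f (r * ee α)‖ ^ 2 ∂mu) :
    (b - a) * c ≤ volume.real (ball (0 : ℂ) M) := by
  have h := image_int hf hi (h0.trans hab) h1 (J := fun _ => 1) continuous_const
  have hg : ContinuousOn (fun r : ℝ => ∫ α, r * ‖deriv f (r * ee α)‖ ^ 2 ∂mu) (Icc 0 b) := by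
    refine continuousOn_iff_continuous_domRestrict.2
      (cont_par (F := fun (r : Icc 0 b) α => (r : ℝ) * ‖deriv f ((r : ℝ) * ee α)‖ ^ 2) ?_)
    exact (continuous_subtype_val.comp continuous_fst).mul
      (((hf.deriv isOpen_ball).continuousOn.comp_continuous (by fun_prop)
        fun p => w_mem p.1.2.1 (p.1.2.2.trans_lt h1) _).norm.pow 2)
  have i1 := (hg.intervalIntegrable_of_Icc (μ := volume) (h0.trans hab))
  have i2 := ((hg.mono (Icc_subset_Icc_left h0)).intervalIntegrable_of_Icc (μ := volume) hab)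
  have h2 := intervalIntegral.integral_mono_on hab intervalIntegrable_const i2 hc
  have h3 := intervalIntegral.integral_mono_interval h0 hab le_rfl
    ((ae_restrict_mem measurableSet_Ioc).mono fun r hr =>
      integral_nonneg fun α => mul_nonneg hr.1.le (sq_nonneg _)) i1
  have h4 : volume.real (f '' ball 0 b) ≤ volume.real (ball (0 : ℂ) M) :=
    measureReal_mono (by
      rintro _ ⟨z, hz, rfl⟩
      exact mem_ball_zero_iff.2 (hM z (ball_subset_ball h1.le hz))) measure_ball_lt_top.ne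
  simp only [mul_one, integral_const, smul_eq_mul, measureReal_restrict_apply_univ] at h
  simp only [mu_int, smul_eq_mul, intervalIntegral.integral_const_mul (2 * π)⁻¹, ← h,
    intervalIntegral.integral_const] at h2 h3
  have h5 : (2 * π)⁻¹ ≤ 1 := inv_le_one_of_one_le₀ (by linarith [pi_gt_three])
  have h6 : 0 ≤ volume.real (f '' ball 0 b) := measureReal_nonneg
  nlinarith

theorem split {x a : ℝ} (hx : 0 ≤ x) (ha : 0 < a) : x ≤ a * x ^ (3 / 4 : ℝ) + x ^ 2 / a ^ 4 := by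
  obtain ⟨y, hy, rfl⟩ : ∃ y, 0 ≤ y ∧ x = y ^ 4 :=
    ⟨x ^ ((4 : ℕ)⁻¹ : ℝ), by positivity, (Real.rpow_inv_natCast_pow hx four_ne_zero).symm⟩
  have e : (y ^ 4) ^ (3 / 4 : ℝ) = y ^ 3 := by
    rw [← Real.rpow_natCast, ← Real.rpow_mul hy, ← Real.rpow_natCast]; norm_num
  rw [e]
  rcases le_total y a with h | h
  · have : y * y ^ 3 ≤ a * y ^ 3 := by gcongr
    have : 0 ≤ (y ^ 4) ^ 2 / a ^ 4 := by positivity
    nlinarith
  · have : y ^ 4 ≤ (y ^ 4) ^ 2 / a ^ 4 := by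
      rw [le_div_iff₀ (by positivity), sq]; gcongr
    have : 0 ≤ a * y ^ 3 := by positivity
    linarith

theorem mean_one {f : ℂ → ℂ} (hf : DifferentiableOn ℂ f (ball 0 1)) (hi : InjOn f (ball 0 1))
    (f0 : f 0 = 0) (f1 : deriv f 0 = 1) {M : ℝ} (hM : ∀ z ∈ ball (0 : ℂ) 1, ‖f z‖ < M) {r a : ℝ}
    (h0 : 1 / 2 ≤ r) (h1 : r < 1) (ha : 0 < a) : ∫ β, ‖deriv f (r * ee β)‖ ∂mu ≤
      a * ((2 * M) ^ 2) ^ (3 / 4 : ℝ) * (1 - r ^ 2) ^ (-(1 / 4) : ℝ) +
        2 / a ^ 4 * ∫ α, r * ‖deriv f (r * ee α)‖ ^ 2 ∂mu := by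
  have r0 : 0 < r := by linarith
  have h := means_real hf hi r0 h1 (3 / 4)
  rw [show (1 : ℝ) + (3 / 4) ^ 2 = (5 / 4) ^ 2 by norm_num, Real.sqrt_sq (by norm_num), f1,
    show (1 : ℝ) - 5 / 4 = -(1 / 4) by norm_num] at h
  have h00 : (0 : ℂ) ∈ ball (0 : ℂ) 1 := mem_ball_self one_pos
  have c1 : Continuous fun β => deriv f (r * ee β) :=
    (hf.deriv isOpen_ball).continuousOn.comp_continuous (by fun_prop) (w_mem r0.le h1)
  have c2 : Continuous fun β => dslope f 0 (r * ee β) :=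
    ((differentiableOn_dslope (isOpen_ball.mem_nhds h00)).2 hf).continuousOn.comp_continuous
      (by fun_prop) (w_mem r0.le h1)
  have d0 := fun β => dslope_ne hf hi h00 (w_mem r0.le h1 β)
  have c3 : Continuous fun β => ‖deriv f (r * ee β) * 1 / dslope f 0 (r * ee β) ^ 2‖ ^ (3 / 4 : ℝ) :=
    ((c1.mul continuous_const).div (c2.pow 2) fun β => pow_ne_zero _ (d0 β)).norm.rpow_const
      fun _ => Or.inr (by norm_num)
  refine le_trans ?_ (add_le_add_left (mul_le_mul_of_nonneg_left h (by positivity)) _)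
  rw [← integral_const_mul, ← integral_const_mul, ← integral_add (intg (by fun_prop)) (intg (by fun_prop))]
  refine integral_mono (intg c1.norm) (intg (by fun_prop)) fun β => ?_
  refine (split (norm_nonneg _) ha).trans (add_le_add ?_ ?_)
  · rw [mul_assoc, ← Real.mul_rpow (by positivity) (by positivity)]
    have hd : ‖dslope f 0 (r * ee β)‖ ≤ 2 * M := by
      have e := congrArg norm (sub_smul_dslope f 0 (r * ee β))
      have := hM _ (w_mem r0.le h1 β)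
      simp only [f0, sub_zero, norm_smul, norm_mul, norm_ee, Complex.norm_real, Real.norm_eq_abs,
        abs_of_pos r0] at e
      nlinarith [norm_nonneg (dslope f 0 (r * ee β))]
    have := norm_pos_iff.2 (d0 β)
    gcongr
    rw [mul_one, norm_div, norm_pow, ← mul_div_assoc, le_div_iff₀ (by positivity), mul_comm]
    gcongr
  · rw [div_mul_eq_mul_div]
    gcongr
    nlinarith [sq_nonneg ‖deriv f (r * ee β)‖]

theorem coef_bound (M : ℝ) : ∃ C : ℝ, ∀ f : ℂ → ℂ, DifferentiableOn ℂ f (ball 0 1) →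
    InjOn f (ball 0 1) → f 0 = 0 → deriv f 0 = 1 → (∀ z ∈ ball (0 : ℂ) 1, ‖f z‖ < M) →
      ∀ n : ℕ, 1 ≤ n → ‖iteratedDeriv n f 0 / (n.factorial : ℂ)‖ ≤ C * (n : ℝ) ^ (-(3 / 5 : ℝ)) := by
  set K := ((2 * M) ^ 2) ^ (3 / 4 : ℝ) with hK
  set A := volume.real (ball (0 : ℂ) M) with hA
  refine ⟨4 * K + 16 * A, fun f hf hi f0 f1 hM n hn => ?_⟩
  have K0 : 0 ≤ K := by positivity
  obtain ⟨k, rfl⟩ := Nat.exists_eq_add_of_le' hn
  obtain ⟨u, u0, hu⟩ : ∃ u : ℝ, 0 < u ∧ ((k + 1 : ℕ) : ℝ) = u ^ 20 :=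
    ⟨((k + 1 : ℕ) : ℝ) ^ ((20 : ℕ)⁻¹ : ℝ), by positivity,
      (Real.rpow_inv_natCast_pow (by positivity) (by norm_num)).symm⟩
  set x := ‖iteratedDeriv (k + 1) f 0 / ((k + 1).factorial : ℂ)‖ with hx
  have e1 : ‖iteratedDeriv k (deriv f) 0 / (k.factorial : ℂ)‖ = u ^ 20 * x := by
    rw [hx, iteratedDeriv_succ', ← hu, Nat.factorial_succ]
    simp only [norm_div, Nat.cast_mul, norm_mul, Complex.norm_natCast]
    field_simp
  have u1 : 1 ≤ u ^ 20 := by rw [← hu]; exact_mod_cast hn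
  have i1 : (u ^ 20)⁻¹ ≤ 1 := inv_le_one_of_one_le₀ u1
  have i0 : 0 < (u ^ 20)⁻¹ := by positivity
  have h := area_le hf hi hM (a := 1 - (u ^ 20)⁻¹ / 2) (b := 1 - (u ^ 20)⁻¹ / 4)
    (c := (u ^ 20 * x / 2 - 2 * K * u ^ 8) * u ^ 12 / 2) (by linarith) (by linarith) (by linarith)
    fun r hr => by
      have r0 : 1 / 2 ≤ r := by linarith [hr.1]
      have r1 : r < 1 := by linarith [hr.2]
      have a1 := coef_le (hf.deriv isOpen_ball) (by linarith) r1 k
      have a2 := mean_one hf hi f0 f1 hM r0 r1 (a := u ^ 3) (by positivity)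
      have a3 : 1 / 2 ≤ r ^ k := by
        have b1 := one_add_mul_le_pow (a := -((u ^ 20)⁻¹ / 2)) (by linarith) k
        have b2 : (1 + -((u ^ 20)⁻¹ / 2)) ^ k ≤ r ^ k := by
          gcongr <;> linarith [hr.1]
        have b3 : k * (u ^ 20)⁻¹ ≤ 1 := by
          rw [← div_eq_mul_inv, div_le_one (by positivity), ← hu]; push_cast; linarith
        linarith
      have a4 : (1 - r ^ 2) ^ (-(1 / 4) : ℝ) ≤ 2 * u ^ 5 := by
        have b1 : ((2 * u ^ 5)⁻¹) ^ 4 ≤ 1 - r ^ 2 := by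
          have : ((2 * u ^ 5)⁻¹) ^ 4 = (u ^ 20)⁻¹ / 16 := by field_simp; norm_num
          nlinarith [hr.2]
        refine (Real.rpow_le_rpow_of_nonpos (by positivity) b1 (by norm_num)).trans (le_of_eq ?_)
        rw [← Real.rpow_natCast, ← Real.rpow_mul (by positivity)]; norm_num [Real.rpow_neg_one]
      rw [e1] at a1
      rw [← hK] at a2
      have a5 : u ^ 3 * K * (1 - r ^ 2) ^ (-(1 / 4) : ℝ) ≤ u ^ 3 * K * (2 * u ^ 5) := by gcongr
      have a6 : u ^ 20 * x * (1 / 2) ≤ u ^ 20 * x * r ^ k := by gcongr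
      generalize ∫ α, r * ‖deriv f (r * ee α)‖ ^ 2 ∂mu = G at *
      have a7 : u ^ 20 * x / 2 - 2 * K * u ^ 8 ≤ 2 / (u ^ 3) ^ 4 * G := by linarith
      rw [div_mul_eq_mul_div, le_div_iff₀ (by positivity)] at a7
      linarith
  have e2 : ((k + 1 : ℕ) : ℝ) ^ (-(3 / 5 : ℝ)) = (u ^ 12)⁻¹ := by
    rw [hu, ← Real.rpow_natCast, ← Real.rpow_mul u0.le, ← Real.rpow_natCast, ← Real.rpow_neg u0.le]
    norm_num
  rw [e2, ← div_eq_mul_inv, le_div_iff₀ (by positivity)]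
  have e3 : (1 - (u ^ 20)⁻¹ / 4 - (1 - (u ^ 20)⁻¹ / 2)) *
      ((u ^ 20 * x / 2 - 2 * K * u ^ 8) * u ^ 12 / 2) = (x * u ^ 12 - 4 * K) / 16 := by
    field_simp; ring
  rw [e3] at h
  linarith

end Pool.Agent.MP_6e64bc_an.H80
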