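import Pool.Agent.MP_6e64bc_an.H80.Grunsky

open MeasureTheory Set Real Complex Filter Topology Function Metric
open scoped ComplexConjugate

namespace Pool.Agent.MP_6e64bc_an.H80

/-- Fejér mean of a two-sided sequence -/
noncomputable def fm {E : Type} [AddCommMonoid E] [Module ℝ E] (N : ℕ) (u : ℤ → E) : E :=
  (N : ℝ)⁻¹ • ∑ m ∈ Finset.range N, ∑ m' ∈ Finset.range N, u (m - m')

theorem fm_neg {E : Type} [AddCommMonoid E] [Module ℝ E] (N : ℕ) (u : ℤ → E) :
    fm N (fun j => u (-j)) = fm N u := by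
  simp only [fm, neg_sub]
  rw [Finset.sum_comm]

theorem fm_mono (N : ℕ) {u v : ℤ → ℝ} (h : ∀ j, u j ≤ v j) : fm N u ≤ fm N v := by
  simp only [fm, smul_eq_mul]
  gcongr; exact h _

theorem fm_add {E : Type} [AddCommMonoid E] [Module ℝ E] (N : ℕ) (u v : ℤ → E) :
    fm N (fun j => u j + v j) = fm N u + fm N v := by
  simp only [fm, Finset.sum_add_distrib, smul_add]

theorem fm_mul (N : ℕ) (c : ℝ) (u : ℤ → ℝ) : fm N (fun j => c * u j) = c * fm N u := by
  simp only [fm, smul_eq_mul, ← Finset.mul_sum]; ring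

theorem fm_ofReal (N : ℕ) (u : ℤ → ℝ) : fm N (fun j => (u j : ℂ)) = (fm N u : ℝ) := by
  simp [fm]

theorem norm_fm (N : ℕ) (u : ℤ → ℂ) : ‖fm N u‖ ≤ fm N fun j => ‖u j‖ := by
  simp only [fm, norm_smul, smul_eq_mul, norm_inv, Real.norm_natCast]
  gcongr
  exact (norm_sum_le _ _).trans (Finset.sum_le_sum fun m _ => norm_sum_le _ _)

/-- weighted Fejér kernel -/
noncomputable def KN (w : ℤ → ℝ) (N : ℕ) (σ : ℝ) : ℂ := fm N fun j => w j * ee (-(j * σ))

/-- Fejér kernel -/
noncomputable def FN (N : ℕ) (σ : ℝ) : ℝ := ‖∑ m ∈ Finset.range N, ee σ ^ m‖ ^ 2 / N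

@[fun_prop] theorem cont_KN (w : ℤ → ℝ) (N : ℕ) : Continuous (KN w N) := by
  unfold KN fm; fun_prop

@[fun_prop] theorem cont_FN (N : ℕ) : Continuous (FN N) := by unfold FN; fun_prop

theorem FN_nonneg (N : ℕ) (σ : ℝ) : 0 ≤ FN N σ := by unfold FN; positivity

theorem KN_one (N : ℕ) (σ : ℝ) : KN (fun _ => 1) N σ = FN N σ := by
  simp only [KN, fm, FN]
  push_cast
  rw [← Complex.conj_mul', map_sum, Finset.sum_mul_sum, real_smul, div_eq_inv_mul]
  push_cast
  congr 1
  refine Finset.sum_congr rfl fun m _ => Finset.sum_congr rfl fun m' _ => ?_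
  rw [ee_pow, ee_pow, ← ee_neg, ← ee_add, one_mul]
  congr 1; ring

theorem KN_re {w : ℤ → ℝ} (hw : ∀ j, w j + w (-j) = 2) (N : ℕ) (σ : ℝ) :
    (KN w N σ).re = FN N σ := by
  have h1 : conj (KN w N σ) = fm N fun j => w (-j) * ee (-(j * σ)) := by
    have : ∀ u : ℤ → ℂ, conj (fm N u) = fm N fun j => conj (u j) := fun u => by simp [fm]
    rw [KN, this, ← fm_neg]
    congr 1; ext j; simp [← ee_neg]
  have h2 : KN w N σ + conj (KN w N σ) = KN (fun _ => 1) N σ + KN (fun _ => 1) N σ := by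
    rw [h1]
    simp only [KN, ← fm_add, ← add_mul, ← ofReal_add, hw, one_add_one_eq_two]
  rw [Complex.add_conj, KN_one] at h2
  have := congrArg re h2
  simp at this; linarith

theorem fm_fc (w : ℤ → ℝ) (N : ℕ) {G : ℝ → ℂ} (hG : Continuous G) :
    fm N (fun j => w j * fc G j) = ∫ σ, G σ * KN w N σ ∂mu := by
  simp only [KN, fm, fc, mul_smul_comm, Finset.mul_sum, integral_smul]
  rw [integral_finsetSum _ fun m _ => intg (by fun_prop)]
  congr 1
  refine Finset.sum_congr rfl fun m _ => ?_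
  rw [integral_finsetSum _ fun m _ => intg (by fun_prop)]
  refine Finset.sum_congr rfl fun m' _ => ?_
  rw [← integral_const_mul]
  congr 1; ext σ; ring

theorem int_FN {N : ℕ} (hN : N ≠ 0) : ∫ σ, FN N σ ∂mu = 1 := by
  have h := fm_fc (fun _ => 1) N (G := fun _ => 1) continuous_const
  have h2 : ∀ j : ℤ, fc (fun _ => 1) j = if j = 0 then 1 else 0 := fun j => by
    split_ifs with e
    · simp [fc, e]
    · simpa [fc] using int_ee (neg_ne_zero.2 e)
  simp only [KN_one, one_mul, ofReal_one, h2, fm, sub_eq_zero, Nat.cast_inj] at h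
  have h3 : ∑ m ∈ Finset.range N, ∑ m' ∈ Finset.range N, (if m = m' then (1 : ℂ) else 0) = N := by
    rw [Finset.sum_congr rfl fun m hm => by rw [Finset.sum_ite_eq, if_pos hm]]
    simp
  have hN' : (N : ℂ) ≠ 0 := by exact_mod_cast hN
  rw [h3, real_smul] at h
  push_cast at h
  rw [inv_mul_cancel₀ hN'] at h
  exact_mod_cast h.symm

theorem norm_one_sub_sq (q x : ℝ) :
    ‖1 - q * ee x‖ ^ 2 = (1 - q) ^ 2 + 4 * q * Real.sin (x / 2) ^ 2 := by
  have h := Real.sin_sq_eq_half_sub (x / 2)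
  rw [show 2 * (x / 2) = x by ring] at h
  rw [Complex.sq_norm, normSq_apply, h]
  simp [ee, Complex.exp_re, Complex.exp_im]
  linear_combination q ^ 2 * Real.sin_sq_add_cos_sq x

theorem FN_sin (N : ℕ) (σ : ℝ) : FN N σ * Real.sin (σ / 2) ^ 2 ≤ 1 / N := by
  have h1 := norm_one_sub_sq 1 σ
  have h2 : ‖1 - ee σ ^ N‖ ≤ 2 := (norm_sub_le _ _).trans (by simp; norm_num)
  rw [← mul_neg_geom_sum, norm_mul] at h2
  have h3 := pow_le_pow_left₀ (by positivity) h2 2
  simp only [ofReal_one, one_mul] at h1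
  rw [mul_pow, h1] at h3
  rw [FN, div_mul_eq_mul_div]
  gcongr
  linarith

theorem fejer {G : ℝ → ℂ} (hG : Continuous G) :
    Tendsto (fun N => ∫ σ, G σ * FN N σ ∂mu) atTop (𝓝 (G 0)) := by
  rw [Metric.tendsto_nhds]
  intro ε hε
  obtain ⟨δ, hδ, h1⟩ := Metric.continuousAt_iff.1 (hG.continuousAt (x := 0)) (ε / 2) (half_pos hε)
  obtain ⟨B, hB⟩ := (isCompact_Icc (a := -π) (b := π)).exists_bound_of_continuousOn
    (hG.sub (continuous_const (y := G 0))).continuousOn
  have hB0 : 0 ≤ B := (norm_nonneg _).trans (hB 0 ⟨by linarith [pi_pos], pi_pos.le⟩)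
  have h2 : ∀ σ ∈ Icc (-π) π, ‖G σ - G 0‖ ≤ ε / 2 + B * (π / δ) ^ 2 * Real.sin (σ / 2) ^ 2 := by
    intro σ hσ
    by_cases h : dist σ 0 < δ
    · have := h1 h
      rw [dist_eq_norm] at this
      exact this.le.trans (le_add_of_nonneg_right (by positivity))
    · rw [dist_zero_right, Real.norm_eq_abs, not_lt] at h
      have a1 := Real.mul_abs_le_abs_sin (x := σ / 2) (by
        rw [abs_le]; constructor <;> linarith [hσ.1, hσ.2])
      have a2 : 1 ≤ π / δ * |Real.sin (σ / 2)| := by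
        rw [abs_div, abs_two] at a1
        calc (1 : ℝ) = π / δ * (2 / π * (δ / 2)) := by field_simp
          _ ≤ _ := by gcongr; exact le_trans (by gcongr) a1
      have a3 := one_le_pow₀ (n := 2) a2
      rw [mul_pow, sq_abs] at a3
      have := hB σ hσ
      simp only [Pi.sub_apply] at this
      nlinarith
  have h3 : Tendsto (fun N : ℕ => B * (π / δ) ^ 2 * (1 / N : ℝ)) atTop (𝓝 0) := by
    simpa using tendsto_one_div_atTop_nhds_zero_nat.const_mul (B * (π / δ) ^ 2)
  filter_upwards [h3.eventually (gt_mem_nhds (half_pos hε)), eventually_ne_atTop 0] with N a b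
  have e : ∫ σ, G σ * FN N σ ∂mu - G 0 = ∫ σ, (G σ - G 0) * FN N σ ∂mu := by
    simp only [sub_mul]
    rw [integral_sub (intg (by fun_prop)) (intg (by fun_prop)), integral_const_mul,
      integral_complex_ofReal, int_FN b]
    simp
  rw [dist_eq_norm, e]
  refine (norm_integral_le_of_norm_le (g := fun σ => ε / 2 * FN N σ + B * (π / δ) ^ 2 * (1 / N))
    (intg (by fun_prop)) (ae_Icc.mono fun σ hσ => ?_)).trans_lt ?_
  · rw [norm_mul, Complex.norm_real, Real.norm_eq_abs, abs_of_nonneg (FN_nonneg N σ)]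
    have := mul_le_mul_of_nonneg_left (FN_sin N σ) (show 0 ≤ B * (π / δ) ^ 2 by positivity)
    have := mul_le_mul_of_nonneg_right (h2 σ hσ) (FN_nonneg N σ)
    nlinarith
  · rw [integral_add (intg (by fun_prop)) (intg (by fun_prop)), integral_const_mul, int_FN b]
    simp only [integral_const, probReal_univ, smul_eq_mul]
    linarith

/-- the test functions -/
noncomputable def ps (j : ℤ) (s : ℝ) : ℂ := ee (-(j * s))

@[fun_prop] theorem cont_ps (j : ℤ) : Continuous (ps j) := by unfold ps; fun_prop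

theorem diag_fc {F : ℝ → ℝ → ℂ} (hF : Continuous (uncurry F)) (hp : ∀ s, Periodic (F s) (2 * π))
    (j : ℤ) : ∫ s, ∫ s', F s s' * (ps j s * ps (-j) s') ∂mu ∂mu =
      fc (fun σ => ∫ s, F s (s - σ) ∂mu) j := by
  have h1 : ∀ s, ∫ s', F s s' * (ps j s * ps (-j) s') ∂mu =
      ∫ σ, F s (s - σ) * ee (-(j * σ)) ∂mu := fun s => by
    rw [← shift (F := fun s' => F s s' * (ps j s * ps (-j) s')) (fun x => by
      have := ee_per j x
      simp only [hp s x, ps, Int.cast_neg, neg_mul, neg_neg, this]) s]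
    congr 1; ext σ
    simp only [ps, ← ee_add]
    congr 2; push_cast; ring
  simp only [h1, fc, ← integral_mul_const]
  exact swap (F := fun s σ => F s (s - σ) * ee (-(j * σ)))
    ((hF.comp (f := fun p : ℝ × ℝ => (p.1, p.1 - p.2)) (by fun_prop)).mul (by fun_prop))

/-- the logarithmic kernel -/
noncomputable def Kq (q x : ℝ) : ℂ := -log (1 - q * ee x)

theorem Kq_sum {q : ℝ} (h0 : 0 ≤ q) (h1 : q < 1) (x : ℝ) :
    HasSum (fun n : ℕ => ((q ^ (n + 1) / (n + 1) : ℝ) : ℂ) * ee ((n + 1) * x)) (Kq q x) := by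
  refine (hasSum_taylorSeries_neg_log' (z := q * ee x)
    (by simpa [abs_of_nonneg h0] using h1)).congr_fun fun n => ?_
  rw [show (n + 1 : ℝ) * x = (n + 1 : ℕ) * x by simp, ← ee_pow]
  push_cast; ring

theorem cont_Kq {q : ℝ} (h0 : 0 ≤ q) (h1 : q < 1) : Continuous (Kq q) := by
  refine (Continuous.clog (by fun_prop) fun x => Or.inl ?_).neg
  have := (Complex.re_le_norm (q * ee x)).trans_lt
    (show ‖(q * ee x : ℂ)‖ < 1 by simpa [abs_of_nonneg h0] using h1)
  simpa using this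

theorem norm_Kq {q : ℝ} (h0 : 0 ≤ q) (h1 : q < 1) (x : ℝ) : ‖Kq q x‖ ≤ -Real.log (1 - q) :=
  (Kq_sum h0 h1 x).norm_le_of_bounded
    (Real.hasSum_pow_div_log_of_abs_lt_one (by rwa [abs_of_nonneg h0])) fun n => by
      rw [norm_mul, norm_ee, mul_one, Complex.norm_real, Real.norm_eq_abs,
        abs_of_nonneg (by positivity)]

theorem EE_eq {q : ℝ} (h0 : 0 ≤ q) (h1 : q < 1) {θ : ℝ → ℝ} (hθ : Continuous θ) (j : ℤ) :
    (EE q θ (ps j) : ℂ) = ∫ s, ∫ s', Kq q (θ s - θ s') * (ps j s * ps (-j) s') ∂mu ∂mu := by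
  have hs := (Real.hasSum_pow_div_log_of_abs_lt_one (x := q) (by rwa [abs_of_nonneg h0])).summable
  have hn : ∀ n : ℕ, ‖((q ^ (n + 1) / (n + 1) : ℝ) : ℂ)‖ = q ^ (n + 1) / (n + 1) := fun n => by
    rw [Complex.norm_real, Real.norm_eq_abs, abs_of_nonneg (by positivity)]
  have hm : ∀ n, ‖mom θ (ps j) n‖ ≤ 1 := fun n => by simpa [ps] using norm_mom θ (ps j) n
  have a1 : ∀ s, HasSum (fun n : ℕ => ((q ^ (n + 1) / (n + 1) : ℝ) : ℂ) * conj (mom θ (ps j) n) *
      (ee ((n + 1) * θ s) * ps j s)) (∫ s', Kq q (θ s - θ s') * (ps j s * ps (-j) s') ∂mu) := by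
    intro s
    refine (hasSum_int (b := fun _ => 1) (fun n => by fun_prop) hs continuous_const (fun n x => ?_)
      fun s' => (Kq_sum h0 h1 (θ s - θ s')).mul_right (ps j s * ps (-j) s')).congr_fun fun n => ?_
    · simp only [norm_mul, hn, norm_ee, ps, mul_one, le_refl]
    · rw [mom, ← integral_conj, ← integral_const_mul, ← integral_mul_const]
      congr 1; ext s'
      simp only [ps, ← ee_neg, mul_assoc, ← ee_add]
      congr 2; push_cast; ring
  have a2 := hasSum_int (b := fun _ => 1) (fun n => by fun_prop) hs continuous_const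
    (fun n x => by
      simp only [norm_mul, hn, norm_ee, ps, mul_one, RCLike.norm_conj]
      exact mul_le_of_le_one_right (by positivity) (hm n)) a1
  refine (Complex.hasSum_ofReal.2 (summable_EE h0 h1 θ (ps j)).hasSum).unique
    (a2.congr_fun fun n => ?_)
  rw [integral_const_mul, ← mom, mul_assoc, Complex.conj_mul']
  push_cast; ring

end Pool.Agent.MP_6e64bc_an.H80
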