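import Pool.Agent.MP_6e64bc_an.H80.Basic

open MeasureTheory Set Real Complex Filter Topology Function Metric
open scoped ComplexConjugate

namespace Pool.Agent.MP_6e64bc_an.H80

/-- Fourier coefficient -/
noncomputable def fc (u : ℝ → ℂ) (n : ℤ) : ℂ := ∫ x, u x * ee (-(n * x)) ∂mu

theorem pars {u : ℝ → ℂ} (hu : Continuous u) :
    HasSum (fun n => ‖fc u n‖ ^ 2) (∫ x, ‖u x‖ ^ 2 ∂mu) := by
  have hab : -π < π := by linarith [pi_pos]
  obtain ⟨C, hC⟩ := (isCompact_Icc (a := -π) (b := π)).exists_bound_of_continuousOn hu.continuousOn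
  have := hasSum_sq_fourierCoeffOn hab (f := u) (MemLp.of_bound hu.aestronglyMeasurable C
    ((ae_restrict_mem measurableSet_Ioc).mono fun x hx => hC x (Ioc_subset_Icc_self hx)))
  rw [mu_int, ← show π - -π = 2 * π by ring]
  convert this using 4 with n
  rw [fourierCoeffOn_eq_integral, fc, mu_int, one_div, show π - -π = 2 * π by ring]
  congr 2; ext x
  rw [fourier_coe_apply, ee, smul_eq_mul, mul_comm]
  congr 2
  have : (π : ℂ) ≠ 0 := by exact_mod_cast pi_ne_zero
  push_cast; field_simp

theorem fc_deriv {g g' : ℝ → ℂ} (hg : ∀ x, HasDerivAt g (g' x) x) (hc : Continuous g')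
    (hp : g π = g (-π)) (n : ℤ) : fc g' n = n * I * fc g n := by
  have hg0 : Continuous g := continuous_iff_continuousAt.2 fun x => (hg x).continuousAt
  have h : ∀ x ∈ uIcc (-π) π, HasDerivAt (fun x : ℝ => g x * ee (-(n * x)))
      (g' x * ee (-(n * x)) - n * I * (g x * ee (-(n * x)))) x := fun x _ => by
    have h1 := (hasDerivAt_ee (-(n * x))).scomp x ((hasDerivAt_id' x).const_mul (n : ℝ)).fun_neg
    refine ((hg x).fun_mul h1).congr_deriv ?_
    simp; ring
  have h2 := intervalIntegral.integral_eq_sub_of_hasDerivAt h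
    (Continuous.intervalIntegrable (by fun_prop) _ _)
  have h3 := ee_per (-n) (-π)
  rw [show -π + 2 * π = π by ring] at h3
  push_cast at h3
  rw [hp, ← neg_mul, h3, neg_mul, sub_self] at h2
  have h4 := mu_int fun x => g' x * ee (-(n * x)) - n * I * (g x * ee (-(n * x)))
  rw [h2, smul_zero, integral_sub (intg (by fun_prop)) (intg (by fun_prop)), integral_const_mul,
    sub_eq_zero] at h4
  exact h4

theorem pars_omega {g g' : ℝ → ℂ} (hg : ∀ x, HasDerivAt g (g' x) x) (hc : Continuous g')
    (hp : g π = g (-π)) :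
    HasSum (fun n : ℤ => (n : ℝ) * ‖fc g n‖ ^ 2) (∫ x, conj (g x) * g' x ∂mu).im := by
  have hg0 : Continuous g := continuous_iff_continuousAt.2 fun x => (hg x).continuousAt
  have e : ∀ c : ℂ, ∀ n, fc (fun x => g x + c * g' x) n = (1 + c * n * I) * fc g n := fun c n => by
    have := fc_deriv hg hc hp n
    simp only [fc, add_mul, mul_assoc] at this ⊢
    rw [integral_add (intg (by fun_prop)) (intg (by fun_prop)), integral_const_mul, this, one_mul]
  have h1 := ((pars (u := fun x => g x + (-I) * g' x) (by fun_prop)).sub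
    (pars (u := fun x => g x + I * g' x) (by fun_prop))).div_const 4
  have h2 : (∫ x, conj (g x) * g' x ∂mu).im =
      (∫ x, ‖g x + -I * g' x‖ ^ 2 ∂mu - ∫ x, ‖g x + I * g' x‖ ^ 2 ∂mu) / 4 := by
    rw [← integral_sub (intg (by fun_prop)) (intg (by fun_prop)), ← integral_div,
      ← RCLike.im_to_complex, ← integral_im (intg (by fun_prop))]
    congr 1; ext x
    simp [Complex.sq_norm, normSq_apply]; ring
  rw [h2]
  refine HasSum.congr_fun h1 fun n => ?_
  rw [e, e, show (1 + -I * n * I : ℂ) = ((1 + n : ℝ) : ℂ) by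
    push_cast; linear_combination (-(n : ℂ)) * I_mul_I,
    show (1 + I * n * I : ℂ) = ((1 - n : ℝ) : ℂ) by
    push_cast; linear_combination ((n : ℂ)) * I_mul_I]
  simp only [norm_mul, mul_pow, Complex.norm_real, Real.norm_eq_abs, sq_abs]; ring

theorem cauchy {F : ℂ → ℂ} (hF : DifferentiableOn ℂ F (ball 0 1)) {ρ : ℝ} (h1 : ρ < 1) {p : ℂ}
    (hp : ‖p‖ < ρ) : ∫ α, F (ρ * ee α) * (ρ * ee α / (ρ * ee α - p)) ∂mu = F p := by
  have h := (hF.mono (closedBall_subset_ball h1)).circleIntegral_sub_inv_smul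
    (w := p) (by simpa using hp)
  rw [shift' (fun x => by simp only [ee_two_pi])]
  simp only [circleIntegral, deriv_circleMap, circleMap, zero_add, smul_eq_mul] at h
  have h2 : ∫ x in (0 : ℝ)..2 * π, F (ρ * ee x) * (ρ * ee x / (ρ * ee x - p)) =
      -I * (2 * π * I * F p) := by
    rw [← h, ← intervalIntegral.integral_const_mul]
    congr 1; ext x
    simp only [ee, div_eq_mul_inv]
    linear_combination (F (ρ * cexp (x * I)) * (ρ * cexp (x * I)) * (ρ * cexp (x * I) - p)⁻¹) * I_mul_I
  have : (π : ℂ) ≠ 0 := by exact_mod_cast pi_ne_zero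
  rw [h2, real_smul]; push_cast; field_simp; simp

theorem exp_int {u u' : ℝ → ℂ} (hu : ∀ x, HasDerivAt u (u' x) x) (hc : Continuous u')
    (h0 : ∀ x, u x ≠ 0) (a b : ℝ) : cexp (∫ x in a..b, u' x / u x) = u b / u a := by
  have hu0 : Continuous u := continuous_iff_continuousAt.2 fun x => (hu x).continuousAt
  have hq : Continuous fun x => u' x / u x := hc.div hu0 h0
  have h : ∀ y, HasDerivAt (fun y => u y * cexp (-∫ x in a..y, u' x / u x)) 0 y := fun y => by
    refine ((hu y).fun_mul (hq.integral_hasStrictDerivAt a y).hasDerivAt.fun_neg.cexp).congr_deriv ?_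
    have := h0 y
    field_simp; ring
  have := is_const_of_deriv_eq_zero (fun y => (h y).differentiableAt) (fun y => (h y).deriv) b a
  simp only [intervalIntegral.integral_same, neg_zero, Complex.exp_zero, mul_one,
    Complex.exp_neg] at this
  rw [eq_div_iff (h0 a), ← this]
  field_simp

end Pool.Agent.MP_6e64bc_an.H80
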