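import Pool.Agent.MP_6e64bc_an.H80.Basic

open MeasureTheory Set Real Complex Filter Topology Function Metric
open scoped ComplexConjugate

namespace Pool.Agent.MP_6e64bc_an.H80

theorem green_rect {G : ℝ × ℝ → ℂ} {U : Set (ℝ × ℝ)} (hU : IsOpen U) (hG : ContDiffOn ℝ 2 G U)
    (a₁ a₂ b₁ b₂ : ℝ) (hs : uIcc a₁ b₁ ×ˢ uIcc a₂ b₂ ⊆ U) :
    (∫ x in a₁..b₁, ∫ y in a₂..b₂, (conj (fderiv ℝ G (x, y) (1, 0)) * fderiv ℝ G (x, y) (0, 1) -
      conj (fderiv ℝ G (x, y) (0, 1)) * fderiv ℝ G (x, y) (1, 0))) =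
      (((∫ x in a₁..b₁, -(conj (G (x, b₂)) * fderiv ℝ G (x, b₂) (1, 0))) -
        ∫ x in a₁..b₁, -(conj (G (x, a₂)) * fderiv ℝ G (x, a₂) (1, 0))) +
        ∫ y in a₂..b₂, conj (G (b₁, y)) * fderiv ℝ G (b₁, y) (0, 1)) -
        ∫ y in a₂..b₂, conj (G (a₁, y)) * fderiv ℝ G (a₁, y) (0, 1) := by
  have hA : ∀ p ∈ U, ContDiffAt ℝ 2 G p := fun p hp => hG.contDiffAt (hU.mem_nhds hp)
  have hD : ∀ p ∈ U, ContDiffAt ℝ 1 (fderiv ℝ G) p := fun p hp =>
    (hA p hp).fderiv_right (by norm_num)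
  have hP : ∀ p ∈ U, ∀ v w : ℝ × ℝ, DifferentiableAt ℝ (fun q => conj (G q) * fderiv ℝ G q v) p ∧
      fderiv ℝ (fun q => conj (G q) * fderiv ℝ G q v) p w =
        conj (G p) * fderiv ℝ (fderiv ℝ G) p w v + fderiv ℝ G p v * conj (fderiv ℝ G p w) := by
    intro p hp v w
    have h1 : HasFDerivAt (fun q => conj (G q))
        (conjCLE.toContinuousLinearMap.comp (fderiv ℝ G p)) p :=
      conjCLE.toContinuousLinearMap.hasFDerivAt.comp p
        ((hA p hp).differentiableAt (by norm_num)).hasFDerivAt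
    have h2 := ((hD p hp).differentiableAt (by norm_num)).hasFDerivAt.clm_apply
      (hasFDerivAt_const v p)
    have h3 := h1.mul h2
    refine ⟨h3.differentiableAt, ?_⟩
    rw [show (fun q => conj (G q) * fderiv ℝ G q v) =
      (fun q => conj (G q)) * fun q => fderiv ℝ G q v from rfl, h3.fderiv]
    simp
  have hc : ∀ v, ContinuousOn (fun q => fderiv ℝ G q v) U := fun v p hp =>
    ((hD p hp).continuousAt.clm_apply continuousAt_const).continuousWithinAt
  have hdiv : ∀ p ∈ U, fderiv ℝ (fun q => conj (G q) * fderiv ℝ G q (0, 1)) p (1, 0) +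
      (-fderiv ℝ (fun q => conj (G q) * fderiv ℝ G q (1, 0)) p) (0, 1) =
      conj (fderiv ℝ G p (1, 0)) * fderiv ℝ G p (0, 1) -
        conj (fderiv ℝ G p (0, 1)) * fderiv ℝ G p (1, 0) := by
    intro p hp
    rw [neg_apply, (hP p hp _ _).2, (hP p hp _ _).2,
      (hA p hp).isSymmSndFDerivAt (by simp) (1, 0) (0, 1)]
    ring
  have hsub : Ioo (min a₁ b₁) (max a₁ b₁) ×ˢ Ioo (min a₂ b₂) (max a₂ b₂) ⊆ U :=
    (Set.prod_mono Ioo_subset_Icc_self Ioo_subset_Icc_self).trans hs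
  have key := integral2_divergence_prod_of_hasFDerivAt
    (fun q => conj (G q) * fderiv ℝ G q (0, 1)) (fun q => -(conj (G q) * fderiv ℝ G q (1, 0)))
    (fderiv ℝ fun q => conj (G q) * fderiv ℝ G q (0, 1))
    (fun p => -fderiv ℝ (fun q => conj (G q) * fderiv ℝ G q (1, 0)) p) a₁ a₂ b₁ b₂
    (fun p hp => (hP p (hs hp) _ 0).1.continuousAt.continuousWithinAt)
    (fun p hp => (hP p (hs hp) _ 0).1.continuousAt.neg.continuousWithinAt)
    (fun p hp => (hP p (hsub hp) _ 0).1.hasFDerivAt)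
    (fun p hp => (hP p (hsub hp) _ 0).1.hasFDerivAt.neg)
    (by
      refine IntegrableOn.congr_fun ?_ (fun p hp => (hdiv p (hs hp)).symm)
        (measurableSet_uIcc.prod measurableSet_uIcc)
      refine ContinuousOn.integrableOn_compact (isCompact_uIcc.prod isCompact_uIcc)
        (ContinuousOn.mono ?_ hs)
      exact ((continuous_conj.comp_continuousOn (hc _)).mul (hc _)).sub
        ((continuous_conj.comp_continuousOn (hc _)).mul (hc _)))
  rw [← key]
  refine intervalIntegral.integral_congr fun x hx => intervalIntegral.integral_congr fun y hy => ?_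
  exact (hdiv (x, y) (hs ⟨hx, hy⟩)).symm

/-- the Jacobian determinant of a real-linear map of the plane -/
noncomputable def jac (L : ℂ →L[ℝ] ℂ) : ℝ := (conj (L 1) * L I).im

theorem jac_mul (L : ℂ →L[ℝ] ℂ) (a : ℂ) (r : ℝ) :
    conj (L a) * L (a * r * I) - conj (L (a * r * I)) * L a = 2 * I * (r * (‖a‖ ^ 2 * jac L) : ℝ) := by
  have h1 : L a = a.re • L 1 + a.im • L I := by
    rw [← map_smul, ← map_smul, ← map_add]; congr 1; simp
  have h2 : L (a * r * I) = (-(r * a.im)) • L 1 + (r * a.re) • L I := by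
    rw [← map_smul, ← map_smul, ← map_add]; congr 1
    apply Complex.ext <;> simp <;> ring
  rw [h1, h2, Complex.sq_norm, normSq_apply, jac]
  apply Complex.ext <;> simp <;> ring

theorem polar {φ : ℂ → ℝ} {ρ : ℝ} (hρ : 0 ≤ ρ) (hφ : ContinuousOn φ (closedBall 0 ρ)) :
    ∫ z in ball 0 ρ, φ z = ∫ r in (0 : ℝ)..ρ, ∫ α in (-π)..π, r * φ (r * ee α) := by
  have he : ∀ p : ℝ × ℝ, Complex.polarCoord.symm p = p.1 * ee p.2 := fun p => by
    rw [Complex.polarCoord_symm_apply, ee, Complex.exp_mul_I]; simp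
  rw [← integral_indicator measurableSet_ball, ← Complex.integral_comp_polarCoord_symm,
    polarCoord_target]
  have h1 : ∫ p in Ioi (0 : ℝ) ×ˢ Ioo (-π) π,
      p.1 • (ball (0 : ℂ) ρ).indicator φ (Complex.polarCoord.symm p) =
      ∫ p in Ioo (0 : ℝ) ρ ×ˢ Ioo (-π) π, p.1 * φ (p.1 * ee p.2) := by
    rw [← integral_indicator (measurableSet_Ioi.prod measurableSet_Ioo),
      ← integral_indicator (measurableSet_Ioo.prod measurableSet_Ioo)]
    congr 1; ext p
    simp only [indicator, he, mem_prod, mem_Ioi, mem_Ioo, mem_ball, dist_zero_right, norm_mul,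
      norm_ee, mul_one, Complex.norm_real, Real.norm_eq_abs, smul_eq_mul]
    by_cases h : 0 < p.1
    · simp only [h, abs_of_pos h, true_and]
      by_cases h2 : p.1 < ρ <;> simp [h2]
    · simp [h]
  rw [h1, Measure.volume_eq_prod, setIntegral_prod, intervalIntegral.integral_of_le hρ,
    integral_Ioc_eq_integral_Ioo]
  · congr 1; ext r
    rw [intervalIntegral.integral_of_le (by linarith [pi_pos]), integral_Ioc_eq_integral_Ioo]
  · refine IntegrableOn.mono_set (t := Icc 0 ρ ×ˢ Icc (-π) π) ?_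
      (Set.prod_mono Ioo_subset_Icc_self Ioo_subset_Icc_self)
    refine ContinuousOn.integrableOn_compact (isCompact_Icc.prod isCompact_Icc) ?_
    refine continuousOn_fst.mul (hφ.comp (by fun_prop) fun p hp => ?_)
    simpa [abs_of_nonneg hp.1.1] using hp.1.2

theorem det_mul (a : ℂ) :
    ((ContinuousLinearMap.toSpanSingleton ℂ a).restrictScalars ℝ).det = ‖a‖ ^ 2 := by
  rw [ContinuousLinearMap.det, ← LinearMap.det_toMatrix Complex.basisOneI, Matrix.det_fin_two,
    Complex.sq_norm, normSq_apply]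
  simp [LinearMap.toMatrix_apply]

theorem image_int {f : ℂ → ℂ} (hf : DifferentiableOn ℂ f (ball 0 1)) (hi : InjOn f (ball 0 1))
    {ρ : ℝ} (h0 : 0 ≤ ρ) (h1 : ρ < 1) {J : ℂ → ℝ} (hJ : Continuous J) :
    ∫ w in f '' ball 0 ρ, J w =
      ∫ r in (0 : ℝ)..ρ, ∫ α in (-π)..π, r * (‖deriv f (r * ee α)‖ ^ 2 * J (f (r * ee α))) := by
  have hs : closedBall (0 : ℂ) ρ ⊆ ball 0 1 := closedBall_subset_ball h1
  have hs' : ball (0 : ℂ) ρ ⊆ ball 0 1 := ball_subset_ball h1.le
  rw [integral_image_eq_integral_abs_det_fderiv_smul volume measurableSet_ball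
    (f' := fun z => (ContinuousLinearMap.toSpanSingleton ℂ (deriv f z)).restrictScalars ℝ)
    (fun z hz => ((hf.differentiableAt (isOpen_ball.mem_nhds (hs' hz))).hasDerivAt.hasFDerivAt.restrictScalars
      ℝ).hasFDerivWithinAt) (hi.mono hs'),
    ← polar (φ := fun z => ‖deriv f z‖ ^ 2 * J (f z)) h0]
  · congr 1; ext z
    rw [det_mul, abs_of_nonneg (by positivity), smul_eq_mul]
  · exact (((hf.deriv isOpen_ball).continuousOn.mono hs).norm.pow 2).mul
      (hJ.comp_continuousOn (hf.continuousOn.mono hs))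

theorem green {f : ℂ → ℂ} (hf : DifferentiableOn ℂ f (ball 0 1)) (hi : InjOn f (ball 0 1))
    {ρ : ℝ} (h0 : 0 ≤ ρ) (h1 : ρ < 1) {H : ℂ → ℂ} (hH : ContDiff ℝ 2 H) :
    2 * ∫ w in f '' ball 0 ρ, jac (fderiv ℝ H w) = (∫ α in (-π)..π, conj (H (f (ρ * ee α))) *
      fderiv ℝ H (f (ρ * ee α)) (deriv f (ρ * ee α) * ee α * ρ * I)).im := by
  have hJ : Continuous fun w => jac (fderiv ℝ H w) := by
    have := hH.continuous_fderiv (by norm_num)
    unfold jac; fun_prop
  rw [image_int hf hi h0 h1 hJ]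
  set U : Set (ℝ × ℝ) := Ioo (-1) 1 ×ˢ univ
  have hm : ∀ p ∈ U, (p.1 * ee p.2 : ℂ) ∈ ball (0 : ℂ) 1 := fun p hp => by
    simpa [abs_lt] using hp.1
  have hpol : ContDiff ℝ 2 fun p : ℝ × ℝ => (p.1 * ee p.2 : ℂ) := by
    have : ContDiff ℝ 2 fun x : ℝ => (x : ℂ) := ofRealCLM.contDiff
    unfold ee; fun_prop
  have hG : ContDiffOn ℝ 2 (fun p : ℝ × ℝ => H (f (p.1 * ee p.2))) U :=
    hH.comp_contDiffOn ((((hf.contDiffOn isOpen_ball).restrict_scalars ℝ).comp hpol.contDiffOn hm))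
  have hD : ∀ p ∈ U, ∀ v : ℝ × ℝ, fderiv ℝ (fun p : ℝ × ℝ => H (f (p.1 * ee p.2))) p v =
      fderiv ℝ H (f (p.1 * ee p.2)) (deriv f (p.1 * ee p.2) * ee p.2 * (v.1 + v.2 * p.1 * I)) := by
    intro p hp v
    have a1 : HasFDerivAt (fun p : ℝ × ℝ => (p.1 : ℂ)) _ p :=
      ofRealCLM.hasFDerivAt.comp p hasFDerivAt_fst
    have a2 : HasFDerivAt (fun p : ℝ × ℝ => ee p.2) _ p :=
      (hasDerivAt_ee p.2).hasFDerivAt.comp p hasFDerivAt_snd
    have a3 := ((hf.differentiableAt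
      (isOpen_ball.mem_nhds (hm p hp))).hasDerivAt.hasFDerivAt.restrictScalars ℝ).comp p (a1.mul a2)
    have a4 := (hH.differentiable (by norm_num) _).hasFDerivAt.comp p a3
    rw [show (fun p : ℝ × ℝ => H (f (p.1 * ee p.2))) = H ∘ f ∘
      ((fun p : ℝ × ℝ => (p.1 : ℂ)) * fun p : ℝ × ℝ => ee p.2) from rfl, a4.fderiv]
    simp only [ContinuousLinearMap.comp_apply]
    congr 1
    simp; ring
  have hsub : uIcc (0 : ℝ) ρ ×ˢ uIcc (-π) π ⊆ U := fun p hp => by
    rw [uIcc_of_le h0] at hp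
    exact ⟨⟨by linarith [hp.1.1], by linarith [hp.1.2]⟩, trivial⟩
  have key := green_rect (isOpen_Ioo.prod isOpen_univ) hG 0 (-π) ρ π hsub
  have hU : ∀ x ∈ uIcc (0 : ℝ) ρ, ∀ y, (x, y) ∈ U := fun x hx y => by
    rw [uIcc_of_le h0] at hx
    exact ⟨⟨by linarith [hx.1], by linarith [hx.2]⟩, trivial⟩
  have hpi : ee (-π) = ee π := by rw [← ee_two_pi]; congr 1; ring
  rw [intervalIntegral.integral_congr (g := fun x => ∫ y in (-π)..π, 2 * I *
      ((x * (‖deriv f (x * ee y)‖ ^ 2 * jac (fderiv ℝ H (f (x * ee y)))) : ℝ) : ℂ))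
      (fun x hx => intervalIntegral.integral_congr fun y _ => by
        have := jac_mul (fderiv ℝ H (f (x * ee y))) (deriv f (x * ee y) * ee y) x
        simp only [hD _ (hU x hx y)]
        simpa [mul_assoc] using this),
    intervalIntegral.integral_congr (a := 0) (b := ρ)
      (f := fun x => -(conj (H (f (x * ee (-π)))) * _))
      (g := fun x => -(conj (H (f (x * ee π))) *
        fderiv ℝ (fun p : ℝ × ℝ => H (f (p.1 * ee p.2))) (x, π) (1, 0)))
      (fun x hx => by simp only [hD _ (hU x hx _), hpi]),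
    intervalIntegral.integral_congr (a := -π) (b := π)
      (f := fun y => conj (H (f ((0 : ℝ) * ee y))) * _) (g := fun _ => 0)
      (fun y _ => by simp [hD _ (hU 0 left_mem_uIcc _)]),
    intervalIntegral.integral_congr (a := -π) (b := π)
      (f := fun y => conj (H (f (ρ * ee y))) * _)
      (g := fun α => conj (H (f (ρ * ee α))) *
        fderiv ℝ H (f (ρ * ee α)) (deriv f (ρ * ee α) * ee α * ρ * I))
      (fun y _ => by simp [hD _ (hU ρ right_mem_uIcc _), mul_assoc])] at key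
  simp only [intervalIntegral.integral_const_mul, intervalIntegral.integral_ofReal, sub_self,
    zero_add, intervalIntegral.integral_zero, sub_zero] at key
  rw [← key]
  simp

end Pool.Agent.MP_6e64bc_an.H80
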