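import Pool.Agent.MP_6e64bc_an.H80.Kern

open MeasureTheory Set Real Complex Filter Topology Function Metric
open scoped ComplexConjugate

namespace Pool.Agent.MP_6e64bc_an.H80

theorem cauchy_tr {a b : ℝ × ℝ → ℂ} (ha : Continuous a) (hb : Continuous b) {K : Set ℂ}
    (hK : IsCompact K) (hbK : ∀ y, b y ∈ K) :
    DifferentiableOn ℂ (fun ζ => ∫ y, a y / (ζ - b y) ∂(mu.prod mu)) Kᶜ ∧
    ∀ ε > 0, ∃ R : ℝ, ∀ w : ℂ, R ≤ ‖w‖ → ‖∫ y, a y / (w - b y) ∂(mu.prod mu)‖ ≤ ε := by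
  constructor
  · intro z hz
    obtain ⟨δ, hδ, hs⟩ := Metric.mem_nhds_iff.1 (hK.isClosed.isOpen_compl.mem_nhds hz)
    have h1 : ∀ w ∈ ball z (δ / 2), ∀ y, δ / 2 ≤ ‖w - b y‖ := fun w hw y => by
      have h2 : δ ≤ dist (b y) z := not_lt.1 fun h => hs (mem_ball.2 h) (hbK y)
      have := dist_triangle_left (b y) z w
      rw [mem_ball] at hw
      rw [← dist_eq_norm]; linarith
    have h2 : ∀ w ∈ ball z (δ / 2), ∀ y, w - b y ≠ 0 := fun w hw y =>
      norm_pos_iff.1 ((half_pos hδ).trans_le (h1 w hw y))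
    have hm := mem_ball_self (x := z) (half_pos hδ)
    have h3 : ∀ w ∈ ball z (δ / 2), Continuous fun y => a y / (w - b y) := fun w hw =>
      ha.div (by fun_prop) (h2 w hw)
    refine (hasDerivAt_integral_of_dominated_loc_of_deriv_le (ball_mem_nhds z (half_pos hδ))
      (F' := fun w y => -a y / (w - b y) ^ 2) (bound := fun y => ‖a y‖ / (δ / 2) ^ 2)
      (eventually_of_mem (ball_mem_nhds z (half_pos hδ)) fun w hw => (h3 w hw).aestronglyMeasurable)
      (intg2 (h3 z hm))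
      (Continuous.div (by fun_prop) (by fun_prop)
        fun y => pow_ne_zero 2 (h2 z hm y)).aestronglyMeasurable
      (ae_of_all _ fun y w hw => ?_) (intg2 (by fun_prop))
      (ae_of_all _ fun y w hw => ?_)).2.differentiableAt.differentiableWithinAt
    · rw [norm_div, norm_neg, norm_pow]
      have := h1 w hw y
      gcongr
    · refine ((hasDerivAt_const w (a y)).fun_div ((hasDerivAt_id' w).sub_const (b y))
        (h2 w hw y)).congr_deriv ?_
      simp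
  · intro ε hε
    obtain ⟨M, hM⟩ := hK.isBounded.subset_closedBall 0
    have hA : 0 ≤ ∫ y, ‖a y‖ ∂(mu.prod mu) := integral_nonneg fun _ => norm_nonneg _
    set A := ∫ y, ‖a y‖ ∂(mu.prod mu) with hAd
    refine ⟨M + (A / ε + 1), fun w hw => ?_⟩
    have hp : 0 < A / ε + 1 := by positivity
    refine (norm_integral_le_of_norm_le (g := fun y => ‖a y‖ / (A / ε + 1)) (intg2 (by fun_prop))
      (ae_of_all _ fun y => ?_)).trans ?_
    · have h1 := norm_sub_norm_le w (b y)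
      have h2 := mem_closedBall_zero_iff.1 (hM (hbK y))
      rw [norm_div]
      gcongr
      linarith
    · rw [integral_div, ← hAd, div_le_iff₀ hp, mul_add, mul_div_cancel₀ _ hε.ne']
      linarith

theorem hasSum_int {F : ℕ → ℝ → ℂ} {G : ℝ → ℂ} (hF : ∀ k, Continuous (F k)) {u : ℕ → ℝ}
    (hu : Summable u) {b : ℝ → ℝ} (hb : Continuous b) (h : ∀ k x, ‖F k x‖ ≤ u k * b x)
    (hs : ∀ x, HasSum (fun k => F k x) (G x)) : HasSum (fun k => ∫ x, F k x ∂mu) (∫ x, G x ∂mu) := by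
  have := hasSum_integral_of_summable_integral_norm (μ := mu) (fun k => intg (hF k))
    (Summable.of_nonneg_of_le (fun k => integral_nonneg fun _ => norm_nonneg _)
      (fun k => (integral_mono (intg (hF k).norm) (intg (continuous_const.mul hb)) (h k)).trans
        (integral_const_mul _ _).le) (hu.mul_right _))
  simpa only [fun x => (hs x).tsum_eq] using this

/-- moments of a density along a parametrisation of the circle -/
noncomputable def mom (θ : ℝ → ℝ) (ψ : ℝ → ℂ) (n : ℕ) : ℂ := ∫ s, ee ((n + 1) * θ s) * ψ s ∂mu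

/-- logarithmic energy -/
noncomputable def EE (q : ℝ) (θ : ℝ → ℝ) (ψ : ℝ → ℂ) : ℝ :=
  ∑' n : ℕ, q ^ (n + 1) / (n + 1) * ‖mom θ ψ n‖ ^ 2

theorem norm_mom (θ : ℝ → ℝ) (ψ : ℝ → ℂ) (n : ℕ) : ‖mom θ ψ n‖ ≤ ∫ s, ‖ψ s‖ ∂mu := by
  simpa [mom] using norm_integral_le_integral_norm (μ := mu) fun s => ee ((n + 1) * θ s) * ψ s

theorem summable_EE {q : ℝ} (h0 : 0 ≤ q) (h1 : q < 1) (θ : ℝ → ℝ) (ψ : ℝ → ℂ) :
    Summable fun n : ℕ => q ^ (n + 1) / (n + 1) * ‖mom θ ψ n‖ ^ 2 := by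
  refine Summable.of_nonneg_of_le (fun n => by positivity) (fun n => ?_)
    (((summable_nat_add_iff 1).2 (summable_geometric_of_lt_one h0 h1)).mul_right
      ((∫ s, ‖ψ s‖ ∂mu) ^ 2))
  have := norm_mom θ ψ n
  gcongr
  exact div_le_self (by positivity) (by simp)

namespace Hyp

variable {f : ℂ → ℂ} {r ρ : ℝ} (H : Hyp f r ρ)
include H

theorem q_lt : r / ρ < 1 := (div_lt_one H.hρ).2 H.hr

theorem q_pos : 0 < r / ρ := div_pos H.h0 H.hρ

theorem kk_sum (β α : ℝ) : HasSum (fun n : ℕ => (((r / ρ) ^ (n + 1) : ℝ) : ℂ) *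
    ee ((n + 1) * β) * ee (-((n + 1) * α))) (kk r ρ β α) := by
  have hρ : (ρ : ℂ) ≠ 0 := by exact_mod_cast H.hρ.ne'
  have ha := ee_ne α
  have h := (hasSum_geometric_of_norm_lt_one (ξ := r * ee β / (ρ * ee α)) (by
    rw [norm_div, H.nw, H.nz]; exact H.q_lt)).mul_left (r * ee β / (ρ * ee α))
  have e : kk r ρ β α = r * ee β / (ρ * ee α) * (1 - r * ee β / (ρ * ee α))⁻¹ := by
    have := H.z_ne α (H.nw β).le
    rw [kk]; field_simp
  rw [e]
  refine h.congr_fun fun n => ?_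
  have e2 : ee (-((n + 1) * α)) * ee α ^ (n + 1) = 1 := by
    rw [ee_pow, ← ee_add]; simp
  rw [eq_div_of_mul_eq (pow_ne_zero _ ha) e2, show (n + 1 : ℝ) = (n + 1 : ℕ) by simp, ← ee_pow]
  simp only [ofReal_pow, ofReal_div, div_pow, mul_pow]
  field_simp; ring

theorem energy {θ : ℝ → ℝ} (hθ : Continuous θ) {ψ : ℝ → ℂ} (hψ : Continuous ψ) :
    ∃ S, HasSum (fun n : ℕ => (n + 1 : ℝ) *
      ‖fc (fun α => ∫ s, LL f r ρ α (θ s) * ψ s ∂mu) (n + 1)‖ ^ 2) S ∧
      S ≤ EE ((r / ρ) ^ 2) θ ψ := by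
  set g : ℝ → ℂ := fun α => ∫ s, LL f r ρ α (θ s) * ψ s ∂mu with hg
  have hK : IsCompact (f '' closedBall 0 r) := (isCompact_closedBall 0 r).image_of_continuousOn
    (H.hf.continuousOn.mono (closedBall_subset_ball (H.hr.trans H.h1)))
  have ha : Continuous fun y : ℝ × ℝ => aa f r (θ y.1) y.2 * ψ y.1 :=
    (H.cont_aa.comp (f := fun y : ℝ × ℝ => (θ y.1, y.2)) (by fun_prop)).mul (by fun_prop)
  have hb : Continuous fun y : ℝ × ℝ => f (xi r (θ y.1) y.2) :=
    H.cont_fxi.comp (f := fun y : ℝ × ℝ => (θ y.1, y.2)) (by fun_prop)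
  obtain ⟨d1, d2⟩ := cauchy_tr ha hb hK fun y =>
    mem_image_of_mem f (mem_closedBall_zero_iff.2 (H.norm_xi _ _))
  set h : ℂ → ℂ := fun ζ => ∫ y : ℝ × ℝ, aa f r (θ y.1) y.2 * ψ y.1 /
    (ζ - f (xi r (θ y.1) y.2)) ∂(mu.prod mu)
  have e1 : ∀ α, g α = h (f (ρ * ee α)) := fun α => by
    simp only [g, h, LL]
    rw [integral_prod _ (by
      exact intg2 (ha.div (continuous_const.sub hb) fun y => H.fz_ne _ _ _))]
    simp only [← integral_mul_const, div_mul_eq_mul_div]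
  have hm : ∀ α, f (ρ * ee α) ∈ (f '' closedBall 0 r)ᶜ := by
    rintro α ⟨w, hw, e⟩
    have hw' := mem_closedBall_zero_iff.1 hw
    exact H.z_ne α hw' (sub_eq_zero.2 (H.hi (H.z_mem α)
      (mem_ball_zero_iff.2 (hw'.trans_lt (H.hr.trans H.h1))) e.symm))
  have ho := hK.isClosed.isOpen_compl
  have hd : ∀ α, HasDerivAt g (deriv h (f (ρ * ee α)) * (deriv f (ρ * ee α) * ee α * ρ * I)) α := by
    intro α
    rw [funext e1]
    have a1 := (H.hf.differentiableAt (isOpen_ball.mem_nhds (H.z_mem α))).hasDerivAt.scomp α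
      ((hasDerivAt_ee α).const_mul (ρ : ℂ))
    refine ((d1.differentiableAt (ho.mem_nhds (hm α))).hasDerivAt.scomp α a1).congr_deriv ?_
    simp only [smul_eq_mul]; ring
  have hc : Continuous fun α => deriv h (f (ρ * ee α)) * (deriv f (ρ * ee α) * ee α * ρ * I) := by
    have a1 := (d1.deriv ho).continuousOn.comp_continuous H.cont_fz hm
    have a2 := (H.hf.deriv isOpen_ball).continuousOn.comp_continuous
      (f := fun α : ℝ => (ρ * ee α : ℂ)) (by fun_prop) H.z_mem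
    exact a1.mul (((a2.mul cont_ee).mul continuous_const).mul continuous_const)
  have hpi : ee (-π) = ee π := by rw [← ee_two_pi]; congr 1; ring
  have P := pars_omega hd hc (by rw [e1, e1, hpi])
  have A := area_principle H.hf H.hi H.h0.le H.hr H.h1 d1 d2
  simp only [← e1] at A
  have hneg : ∀ n : ℕ, fc g (-(n + 1)) = -(((r / ρ) ^ (n + 1) : ℝ) / (n + 1) * mom θ ψ n) := by
    intro n
    simp only [fc, g, ← integral_mul_const]
    rw [swap (F := fun α s => LL f r ρ α (θ s) * ψ s * ee (-(((-(n + 1) : ℤ) : ℝ) * α)))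
      (((H.cont_LL.comp (f := fun y : ℝ × ℝ => (y.1, θ y.2)) (by fun_prop)).mul
        (hψ.comp continuous_snd)).mul (by fun_prop)), mom, ← integral_const_mul, ← integral_neg]
    congr 1; ext s
    simp only [mul_right_comm _ (ψ s)]
    rw [integral_mul_const]
    have := H.LL_neg (θ s) n
    push_cast at this ⊢
    simp only [neg_mul, neg_neg]
    rw [this]; ring
  have s1 := (P.summable.comp_injective (i := fun n : ℕ => (n + 1 : ℤ))
    fun a b e => by simpa using e).hasSum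
  have s2 : HasSum (fun n : ℕ => ((-(n + 1) : ℤ) : ℝ) * ‖fc g (-(n + 1))‖ ^ 2)
      (-EE ((r / ρ) ^ 2) θ ψ) := by
    refine (summable_EE (by positivity) (pow_lt_one₀ H.q_pos.le H.q_lt two_ne_zero)
      θ ψ).hasSum.neg.congr_fun fun n => ?_
    have hn : ‖(n + 1 : ℂ)‖ = n + 1 := by exact_mod_cast Complex.norm_natCast (n + 1)
    rw [hneg, norm_neg, norm_mul, norm_div, hn, Complex.norm_real, Real.norm_eq_abs, mul_pow,
      div_pow, sq_abs, ← pow_mul, ← pow_mul, mul_comm 2]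
    push_cast; field_simp
  have s3 := (HasSum.of_add_one_of_neg_add_one (f := fun n : ℤ => (n : ℝ) * ‖fc g n‖ ^ 2)
    s1 s2).unique P
  refine ⟨_, s1.congr_fun fun n => by simp, ?_⟩
  rw [mu_int, Complex.smul_im] at s3
  have := mul_nonneg (show 0 ≤ (2 * π)⁻¹ by positivity) (neg_nonneg.2 A)
  simp only [Int.cast_zero, zero_mul, add_zero, smul_eq_mul] at s3
  linarith

theorem grunsky {θ : ℝ → ℝ} (hθ : Continuous θ) {ψ₁ ψ₂ : ℝ → ℂ} (h₁ : Continuous ψ₁)
    (h₂ : Continuous ψ₂) {c : ℝ} (hc : 0 < c) :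
    ‖∫ s, ∫ s', VV f r ρ (θ s) (θ s') * (ψ₁ s * ψ₂ s') ∂mu ∂mu‖ ≤
      (c * EE ((r / ρ) ^ 2) θ ψ₁ + EE ((r / ρ) ^ 2) θ ψ₂ / c) / 2 := by
  obtain ⟨S, hS, hS'⟩ := H.energy hθ h₂
  set g : ℝ → ℂ := fun α => ∫ s, LL f r ρ α (θ s) * ψ₂ s ∂mu with hg
  have hL : Continuous fun y : ℝ × ℝ => LL f r ρ y.1 (θ y.2) * ψ₂ y.2 :=
    (H.cont_LL.comp (f := fun y : ℝ × ℝ => (y.1, θ y.2)) (by fun_prop)).mul (by fun_prop)
  have gc : Continuous g := cont_par (F := fun α s => LL f r ρ α (θ s) * ψ₂ s) hL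
  have hq := (summable_nat_add_iff 1).2 (summable_geometric_of_lt_one H.q_pos.le H.q_lt)
  have hq' : ∀ n : ℕ, ‖(((r / ρ) ^ (n + 1) : ℝ) : ℂ)‖ = (r / ρ) ^ (n + 1) := fun n => by
    rw [Complex.norm_real, Real.norm_eq_abs, abs_of_pos (pow_pos H.q_pos _)]
  have a1 : ∀ β, HasSum (fun n : ℕ => (((r / ρ) ^ (n + 1) : ℝ) : ℂ) * ee ((n + 1) * β) * fc g (n + 1))
      (∫ α, g α * kk r ρ β α ∂mu) := fun β => by
    refine (hasSum_int (fun n => by fun_prop) hq gc.norm (fun n α => ?_)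
      fun α => (H.kk_sum β α).mul_left (g α)).congr_fun fun n => ?_
    · simp only [norm_mul, norm_ee, hq', mul_one, mul_comm, le_refl]
    · rw [fc, ← integral_const_mul]
      congr 1; ext α; push_cast; ring
  have a2 : ∀ s, ∫ s', VV f r ρ (θ s) (θ s') * (ψ₁ s * ψ₂ s') ∂mu =
      (∫ α, g α * kk r ρ (θ s) α ∂mu) * ψ₁ s := fun s => by
    simp only [VV, g, ← integral_mul_const]
    rw [swap (F := fun α s' => LL f r ρ α (θ s') * ψ₂ s' * kk r ρ (θ s) α * ψ₁ s)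
      ((hL.mul (H.cont_kk.comp (f := fun y : ℝ × ℝ => (θ s, y.1)) (by fun_prop))).mul
        continuous_const)]
    congr 1; ext s'; congr 1; ext α; ring
  have hfc : ∀ n, ‖fc g n‖ ≤ ∫ α, ‖g α‖ ∂mu := fun n => by
    simpa [fc] using norm_integral_le_integral_norm (μ := mu) fun α => g α * ee (-(n * α))
  have a3 := hasSum_int (fun n => by fun_prop) (hq.mul_right (∫ α, ‖g α‖ ∂mu)) h₁.norm
    (fun n s => by
      simp only [norm_mul, norm_ee, hq', mul_one]
      have := hfc (n + 1)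
      have := H.q_pos
      gcongr) fun s => (a1 (θ s)).mul_right (ψ₁ s)
  simp only [a2]
  have a4 := (((summable_EE (by positivity) (pow_lt_one₀ H.q_pos.le H.q_lt two_ne_zero)
    θ ψ₁).hasSum.mul_left c).add (hS.div_const c)).div_const 2
  refine (a3.norm_le_of_bounded a4 fun n => ?_).trans (by unfold EE at hS' ⊢; gcongr)
  have e : ∫ s, (((r / ρ) ^ (n + 1) : ℝ) : ℂ) * ee ((n + 1) * θ s) * fc g (n + 1) * ψ₁ s ∂mu =
      (((r / ρ) ^ (n + 1) : ℝ) : ℂ) * mom θ ψ₁ n * fc g (n + 1) := by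
    rw [mom, ← integral_const_mul, ← integral_mul_const]
    congr 1; ext s; ring
  rw [e, norm_mul, norm_mul, hq', ← pow_mul, mul_comm 2, pow_mul]
  generalize (r / ρ) ^ (n + 1) = x
  generalize ‖mom θ ψ₁ n‖ = y
  generalize ‖fc g (n + 1)‖ = z
  have hn : (0 : ℝ) < n + 1 := by positivity
  rw [← sub_nonneg, show (c * (x ^ 2 / (n + 1) * y ^ 2) + (n + 1) * z ^ 2 / c) / 2 - x * y * z =
    (c * x * y - (n + 1) * z) ^ 2 / (2 * c * (n + 1)) by field_simp; ring]
  positivity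

end Hyp

end Pool.Agent.MP_6e64bc_an.H80
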