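import Pool.Agent.MP_6e64bc_an.H80.Area
import Pool.Agent.MP_6e64bc_an.H80.Four

open MeasureTheory Set Real Complex Filter Topology Function Metric
open scoped ComplexConjugate

namespace Pool.Agent.MP_6e64bc_an.H80

/-- a univalent function and two radii -/
structure Hyp (f : ℂ → ℂ) (r ρ : ℝ) : Prop where
  hf : DifferentiableOn ℂ f (ball 0 1)
  hi : InjOn f (ball 0 1)
  h0 : 0 < r
  hr : r < ρ
  h1 : ρ < 1

/-- radial path from `0` to `r e^{iβ}` -/
noncomputable def xi (r β x : ℝ) : ℂ := ((1 + Real.sin (x / 2)) / 2 : ℝ) * (r * ee β)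

/-- velocity of the radial path -/
noncomputable def xv (r β x : ℝ) : ℂ := (Real.cos (x / 2) / 4 : ℝ) * (r * ee β)

/-- density of the logarithmic kernel -/
noncomputable def aa (f : ℂ → ℂ) (r β x : ℝ) : ℂ := -(2 * π * xv r β x) * deriv f (xi r β x)

/-- the logarithm of `(f ζ - f w) / (f ζ - f 0)` -/
noncomputable def LL (f : ℂ → ℂ) (r ρ α β : ℝ) : ℂ :=
  ∫ x, aa f r β x / (f (ρ * ee α) - f (xi r β x)) ∂mu

/-- the Cauchy kernel without constant term -/
noncomputable def kk (r ρ β α : ℝ) : ℂ := r * ee β / (ρ * ee α - r * ee β)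

/-- the Grunsky kernel on the circle of radius `r` -/
noncomputable def VV (f : ℂ → ℂ) (r ρ β β' : ℝ) : ℂ := ∫ α, LL f r ρ α β' * kk r ρ β α ∂mu

theorem hasDerivAt_xi (r β x : ℝ) : HasDerivAt (xi r β) (xv r β x) x := by
  have h := ((((hasDerivAt_id' x).div_const 2).sin.const_add 1).div_const 2).ofReal_comp.mul_const
    (r * ee β : ℂ)
  refine h.congr_deriv ?_
  simp only [xv]; push_cast; ring

@[fun_prop] theorem cont_xi (r : ℝ) : Continuous fun p : ℝ × ℝ => xi r p.1 p.2 := by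
  unfold xi; fun_prop

@[fun_prop] theorem cont_xv (r : ℝ) : Continuous fun p : ℝ × ℝ => xv r p.1 p.2 := by
  unfold xv; fun_prop

theorem xi_left (r β : ℝ) : xi r β (-π) = 0 := by simp [xi, neg_div]

theorem xi_right (r β : ℝ) : xi r β π = r * ee β := by simp [xi]

theorem int_xv {F : ℝ → ℂ} : ∫ x, 2 * π * F x ∂mu = ∫ x in (-π)..π, F x := by
  have : (π : ℂ) ≠ 0 := by exact_mod_cast pi_ne_zero
  rw [integral_const_mul, mu_int, real_smul]; push_cast; field_simp

theorem dslope_ne {f : ℂ → ℂ} (hf : DifferentiableOn ℂ f (ball 0 1)) (hi : InjOn f (ball 0 1))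
    {p z : ℂ} (hp : p ∈ ball (0 : ℂ) 1) (hz : z ∈ ball (0 : ℂ) 1) : dslope f p z ≠ 0 := by
  by_cases h : z = p
  · rw [h, dslope_same]; exact deriv_ne hf hi hp
  · intro e
    have := sub_smul_dslope f p z
    rw [e, smul_zero, eq_comm, sub_eq_zero] at this
    exact h (hi hz hp this)

theorem psi_eq {f : ℂ → ℂ} {p z : ℂ} (hf : DifferentiableAt ℂ f z) (h : z ≠ p) (h' : f z ≠ f p) :
    deriv (dslope f p) z / dslope f p z = 1 / (p - z) - deriv f z / (f p - f z) := by
  have h1 : HasDerivAt (fun w => (f w - f p) / (w - p)) _ z :=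
    (hf.hasDerivAt.sub_const (f p)).fun_div ((hasDerivAt_id' z).sub_const p) (sub_ne_zero.2 h)
  have h2 : slope f p = fun w => (f w - f p) / (w - p) := funext fun w => slope_def_field f p w
  rw [(dslope_eventuallyEq_slope_of_ne f h).deriv_eq, dslope_of_ne f h, h2, h1.deriv]
  have a := sub_ne_zero.2 h
  have b := sub_ne_zero.2 h.symm
  have c := sub_ne_zero.2 h'
  have d := sub_ne_zero.2 h'.symm
  field_simp; ring

namespace Hyp

variable {f : ℂ → ℂ} {r ρ : ℝ} (H : Hyp f r ρ)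
include H

theorem hρ : 0 < ρ := H.h0.trans H.hr

theorem norm_xi (β x : ℝ) : ‖xi r β x‖ ≤ r := by
  have h1 := Real.sin_le_one (x / 2)
  have h2 := Real.neg_one_le_sin (x / 2)
  simp only [xi, norm_mul, Complex.norm_real, norm_ee, Real.norm_eq_abs, mul_one, abs_of_pos H.h0]
  rw [abs_of_nonneg (by linarith)]
  nlinarith [H.h0]

theorem nw (β : ℝ) : ‖(r * ee β : ℂ)‖ = r := by simp [abs_of_pos H.h0]

theorem nz (α : ℝ) : ‖(ρ * ee α : ℂ)‖ = ρ := by simp [abs_of_pos H.hρ]

theorem xi_mem (β x : ℝ) : xi r β x ∈ ball (0 : ℂ) 1 :=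
  mem_ball_zero_iff.2 ((H.norm_xi β x).trans_lt (H.hr.trans H.h1))

theorem w_mem (β : ℝ) : (r * ee β : ℂ) ∈ ball (0 : ℂ) 1 :=
  mem_ball_zero_iff.2 ((H.nw β).trans_lt (H.hr.trans H.h1))

theorem z_mem (α : ℝ) : (ρ * ee α : ℂ) ∈ ball (0 : ℂ) 1 :=
  mem_ball_zero_iff.2 ((H.nz α).trans_lt H.h1)

theorem z_ne (α : ℝ) {p : ℂ} (hp : ‖p‖ ≤ r) : (ρ * ee α : ℂ) - p ≠ 0 := fun e => by
  rw [← sub_eq_zero.1 e, H.nz] at hp; linarith [H.hr]

theorem fz_ne (α β x : ℝ) : f (ρ * ee α) - f (xi r β x) ≠ 0 := fun e =>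
  H.z_ne α (H.norm_xi β x) (sub_eq_zero.2 (H.hi (H.z_mem α) (H.xi_mem β x) (sub_eq_zero.1 e)))

theorem cont_fxi : Continuous fun p : ℝ × ℝ => f (xi r p.1 p.2) :=
  H.hf.continuousOn.comp_continuous (cont_xi r) fun _ => H.xi_mem _ _

theorem cont_fz : Continuous fun α : ℝ => f (ρ * ee α) :=
  H.hf.continuousOn.comp_continuous (by fun_prop) H.z_mem

theorem cont_aa : Continuous fun p : ℝ × ℝ => aa f r p.1 p.2 := by
  have := (H.hf.deriv isOpen_ball).continuousOn.comp_continuous (cont_xi r) fun _ => H.xi_mem _ _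
  exact (continuous_const.mul (cont_xv r)).neg.mul this

theorem cont_core : Continuous fun p : (ℝ × ℝ) × ℝ =>
    aa f r p.1.2 p.2 / (f (ρ * ee p.1.1) - f (xi r p.1.2 p.2)) :=
  (H.cont_aa.comp (f := fun p : (ℝ × ℝ) × ℝ => (p.1.2, p.2)) (by fun_prop)).div
    ((H.cont_fz.comp (by fun_prop)).sub
      (H.cont_fxi.comp (f := fun p : (ℝ × ℝ) × ℝ => (p.1.2, p.2)) (by fun_prop)))
    fun _ => H.fz_ne _ _ _

theorem cont_LL : Continuous fun p : ℝ × ℝ => LL f r ρ p.1 p.2 :=
  cont_par (F := fun (p : ℝ × ℝ) x => aa f r p.2 x / (f (ρ * ee p.1) - f (xi r p.2 x))) H.cont_core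

omit H in
theorem cont_kk (H : Hyp f r ρ) : Continuous fun p : ℝ × ℝ => kk r ρ p.1 p.2 :=
  Continuous.div (by fun_prop) (by fun_prop) fun _ => H.z_ne _ (H.nw _).le

theorem cont_VV : Continuous fun p : ℝ × ℝ => VV f r ρ p.1 p.2 :=
  cont_par (F := fun (p : ℝ × ℝ) α => LL f r ρ α p.2 * kk r ρ p.1 α)
    ((H.cont_LL.comp (f := fun p : (ℝ × ℝ) × ℝ => (p.2, p.1.2)) (by fun_prop)).mul
      (H.cont_kk.comp (f := fun p : (ℝ × ℝ) × ℝ => (p.1.1, p.2)) (by fun_prop)))

theorem LL_pair (β : ℝ) {k : ℝ → ℂ} (hk : Continuous k) : ∫ α, LL f r ρ α β * k α ∂mu =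
    ∫ x, -(2 * π * xv r β x) *
      ∫ α, deriv f (xi r β x) / (f (ρ * ee α) - f (xi r β x)) * k α ∂mu ∂mu := by
  simp only [LL, ← integral_mul_const, ← integral_const_mul]
  rw [swap (F := fun α x => aa f r β x / (f (ρ * ee α) - f (xi r β x)) * k α) (((H.cont_core.comp (f := fun p : ℝ × ℝ => ((p.1, β), p.2)) (by fun_prop))).mul
    (hk.comp continuous_fst))]
  simp only [aa, mul_div_assoc, mul_assoc]

theorem dG {p : ℂ} (hp : p ∈ ball (0 : ℂ) 1) :
    DifferentiableOn ℂ (fun z => deriv f p / dslope f p z) (ball 0 1) :=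
  (differentiableOn_const _).div ((differentiableOn_dslope (isOpen_ball.mem_nhds hp)).2 H.hf)
    fun _ hz => dslope_ne H.hf H.hi hp hz

theorem LL_neg (β : ℝ) (n : ℕ) : ∫ α, LL f r ρ α β * ee ((n + 1) * α) ∂mu =
    -(((r / ρ) ^ (n + 1) : ℝ) * ee ((n + 1) * β) / (n + 1)) := by
  have hρ : (ρ : ℂ) ≠ 0 := by exact_mod_cast H.hρ.ne'
  have hn : (n + 1 : ℂ) ≠ 0 := by exact_mod_cast n.succ_ne_zero
  have h1 : ∀ x, ∫ α, deriv f (xi r β x) / (f (ρ * ee α) - f (xi r β x)) * ee ((n + 1) * α) ∂mu =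
      xi r β x ^ n / ρ ^ (n + 1) := fun x => by
    have := cauchy (F := fun z => z ^ n / ρ ^ (n + 1) * (deriv f (xi r β x) / dslope f (xi r β x) z))
      (DifferentiableOn.mul (by fun_prop) (H.dG (H.xi_mem β x))) H.h1
      ((H.norm_xi β x).trans_lt H.hr)
    rw [dslope_same, div_self (deriv_ne H.hf H.hi (H.xi_mem β x)), mul_one] at this
    rw [← this]
    congr 1; ext α
    have a := H.z_ne α (H.norm_xi β x)
    have b := dslope_ne H.hf H.hi (H.xi_mem β x) (H.z_mem α)
    rw [← sub_smul_dslope f (xi r β x), smul_eq_mul, show (n + 1 : ℝ) = (n + 1 : ℕ) by simp,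
      ← ee_pow]
    field_simp; ring
  rw [H.LL_pair β (by fun_prop)]
  simp only [h1]
  have h2 : ∀ x ∈ uIcc (-π) π, HasDerivAt (fun x => -(xi r β x ^ (n + 1) / ρ ^ (n + 1) / (n + 1)))
      (-(xv r β x * (xi r β x ^ n / ρ ^ (n + 1)))) x := fun x _ => by
    refine ((((hasDerivAt_xi r β x).fun_pow (n + 1)).div_const _).div_const _).fun_neg.congr_deriv ?_
    simp; field_simp
  have hc1 : Continuous (xi r β) := (cont_xi r).comp (f := fun x => (β, x)) (by fun_prop)
  have hc2 : Continuous (xv r β) := (cont_xv r).comp (f := fun x => (β, x)) (by fun_prop)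
  have h3 := intervalIntegral.integral_eq_sub_of_hasDerivAt h2
    (Continuous.intervalIntegrable (by fun_prop) _ _)
  rw [← int_xv, xi_left, xi_right] at h3
  simp only [neg_mul, mul_assoc, mul_neg] at h3 ⊢
  rw [h3, show (n + 1 : ℝ) = (n + 1 : ℕ) by simp, ← ee_pow]
  simp [div_pow, mul_pow]; field_simp

theorem exp_VV (β : ℝ) : cexp (VV f r ρ β β) =
    deriv f (r * ee β) * deriv f 0 / dslope f 0 (r * ee β) ^ 2 := by
  set w : ℂ := r * ee β with hw
  have hw0 : w ≠ 0 := mul_ne_zero (by exact_mod_cast H.h0.ne') (ee_ne β)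
  have h00 : (0 : ℂ) ∈ ball (0 : ℂ) 1 := mem_ball_self one_pos
  have hD : ∀ p ∈ ball (0 : ℂ) 1, DifferentiableOn ℂ (dslope f p) (ball 0 1) := fun p hp =>
    (differentiableOn_dslope (isOpen_ball.mem_nhds hp)).2 H.hf
  have hc1 : Continuous (xi r β) := (cont_xi r).comp (f := fun x => (β, x)) (by fun_prop)
  have hc2 : Continuous (xv r β) := (cont_xv r).comp (f := fun x => (β, x)) (by fun_prop)
  have hu : ∀ p ∈ ball (0 : ℂ) 1, (∀ x, HasDerivAt (fun x => dslope f p (xi r β x))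
      (xv r β x * deriv (dslope f p) (xi r β x)) x) ∧
      Continuous (fun x => xv r β x * deriv (dslope f p) (xi r β x)) ∧
      ∀ x, dslope f p (xi r β x) ≠ 0 := fun p hp =>
    ⟨fun x => ((hD p hp).differentiableAt (isOpen_ball.mem_nhds (H.xi_mem β x))).hasDerivAt.scomp x
      (hasDerivAt_xi r β x), hc2.mul (((hD p hp).deriv isOpen_ball).continuousOn.comp_continuous
        hc1 (H.xi_mem β)), fun x => dslope_ne H.hf H.hi hp (H.xi_mem β x)⟩
  have hq : ∀ p ∈ ball (0 : ℂ) 1, Continuous fun x =>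
      xv r β x * deriv (dslope f p) (xi r β x) / dslope f p (xi r β x) := fun p hp =>
    (hu p hp).2.1.div ((hD p hp).continuousOn.comp_continuous hc1 (H.xi_mem β)) (hu p hp).2.2
  have h1 : VV f r ρ β β = (∫ x in (-π)..π,
      xv r β x * deriv (dslope f w) (xi r β x) / dslope f w (xi r β x)) -
      ∫ x in (-π)..π, xv r β x * deriv (dslope f 0) (xi r β x) / dslope f 0 (xi r β x) := by
    rw [← intervalIntegral.integral_sub ((hq w (H.w_mem β)).intervalIntegrable _ _)
      ((hq 0 h00).intervalIntegrable _ _), ← int_xv, VV,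
      H.LL_pair β (k := kk r ρ β) (H.cont_kk.comp (f := fun α => (β, α)) (by fun_prop))]
    refine integral_congr_ae (ae_mu.mono fun x hx => ?_)
    have hc : 0 < Real.cos (x / 2) := Real.cos_pos_of_mem_Ioo
      ⟨by linarith [hx.1.1], by linarith [hx.1.2]⟩
    have hs := Real.sin_sq_add_cos_sq (x / 2)
    set p := xi r β x with hp
    have pm : p ∈ ball (0 : ℂ) 1 := H.xi_mem β x
    have p0 : p ≠ 0 := mul_ne_zero (by
      have : (1 + Real.sin (x / 2)) / 2 ≠ 0 := fun e => by nlinarith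
      exact_mod_cast this) hw0
    have pw : p ≠ w := fun e => by
      have h2 : (((1 + Real.sin (x / 2)) / 2 : ℝ) : ℂ) = 1 :=
        mul_right_cancel₀ hw0 (e.trans (one_mul w).symm)
      have : (1 + Real.sin (x / 2)) / 2 = 1 := by exact_mod_cast h2
      nlinarith
    have f0 : f p ≠ f 0 := fun e => p0 (H.hi pm h00 e)
    have fw : f p ≠ f w := fun e => pw (H.hi pm (H.w_mem β) e)
    have hn : ∀ c : ℂ, ‖c‖ ≤ r → Integrable (fun α => deriv f p / dslope f p (ρ * ee α) *
        (ρ * ee α / (ρ * ee α - c))) mu := fun c hc => intg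
      (((H.dG pm).continuousOn.comp_continuous (by fun_prop) H.z_mem).mul
        (Continuous.div (by fun_prop) (by fun_prop) fun α => H.z_ne α hc))
    have c1 := cauchy (H.dG pm) H.h1 ((H.nw β).trans_lt H.hr)
    have c2 := cauchy (H.dG pm) H.h1 ((H.norm_xi β x).trans_lt H.hr)
    have c3 := cauchy (H.dG pm) H.h1 (p := 0) (by simpa using H.hρ)
    have e : ∫ α, deriv f p / (f (ρ * ee α) - f p) * kk r ρ β α ∂mu =
        1 / (w - p) * (deriv f p / dslope f p w) + w / (p * (p - w)) * (deriv f p / dslope f p p) +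
          1 / p * (deriv f p / dslope f p 0) := by
      rw [← c1, ← c2, ← c3, ← integral_const_mul, ← integral_const_mul, ← integral_const_mul,
        ← integral_add ((hn _ (H.nw β).le).const_mul _) ((hn _ (H.norm_xi β x)).const_mul _),
        ← integral_add (by
          exact ((hn _ (H.nw β).le).const_mul _).add ((hn _ (H.norm_xi β x)).const_mul _))
          ((hn 0 (by simpa using H.h0.le)).const_mul _)]
      congr 1; ext α
      have a1 := H.z_ne α (H.norm_xi β x)
      have a2 := H.z_ne α (H.nw β).le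
      have a3 := H.z_ne α (p := 0) (by simpa using H.h0.le)
      have b := dslope_ne H.hf H.hi pm (H.z_mem α)
      have d1 := sub_ne_zero.2 pw
      have d2 := sub_ne_zero.2 pw.symm
      rw [← sub_smul_dslope f p, smul_eq_mul, kk]
      simp only [← hw, ← hp, sub_zero] at *
      generalize (ρ * ee α : ℂ) = z at *
      field_simp; ring
    have hd := (H.hf.differentiableAt (isOpen_ball.mem_nhds pm))
    simp only
    rw [e, mul_div_assoc (xv r β x), mul_div_assoc (xv r β x), psi_eq hd pw fw, psi_eq hd p0 f0, dslope_same,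
      div_self (deriv_ne H.hf H.hi pm), dslope_of_ne f pw.symm, dslope_of_ne f p0.symm,
      slope_def_field, slope_def_field]
    have d1 := sub_ne_zero.2 pw
    have d2 := sub_ne_zero.2 pw.symm
    have d3 := sub_ne_zero.2 f0.symm
    have d4 := sub_ne_zero.2 fw.symm
    simp only [zero_sub]
    field_simp; ring
  rw [h1, Complex.exp_sub, exp_int (hu w (H.w_mem β)).1 (hu w (H.w_mem β)).2.1 (hu w (H.w_mem β)).2.2,
    exp_int (hu 0 h00).1 (hu 0 h00).2.1 (hu 0 h00).2.2, xi_left, xi_right, ← hw, dslope_same,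
    dslope_same, dslope_of_ne f hw0.symm, slope_comm, ← dslope_of_ne f hw0]
  have := dslope_ne H.hf H.hi h00 (H.w_mem β)
  field_simp

end Hyp

end Pool.Agent.MP_6e64bc_an.H80
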