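import Pool.Agent.MP_6e64bc_an.H80.Circle

open MeasureTheory Set Real Complex Filter Topology Function Metric
open scoped ComplexConjugate

namespace Pool.Agent.MP_6e64bc_an.H80

theorem gibbs {φ : ℝ → ℝ} (hφ : Continuous φ) (hp : Periodic φ (2 * π)) :
    ∃ θ θ', Diff θ θ' ∧ ∀ s, φ (θ s) + Real.log (θ' s) = Real.log (∫ x, rexp (φ x) ∂mu) := by
  set Z := ∫ x, rexp (φ x) ∂mu with hZ
  have hc : Continuous fun x => rexp (φ x) := by fun_prop
  have Z0 : 0 < Z := integral_exp_pos (intg hc)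
  have hc' : Continuous fun x => rexp (φ x) / Z := hc.div_const Z
  set S : ℝ → ℝ := fun β => ∫ x in (0 : ℝ)..β, rexp (φ x) / Z with hSd
  have hS : ∀ β, HasDerivAt S (rexp (φ β) / Z) β := fun β =>
    (hc'.integral_hasStrictDerivAt 0 β).hasDerivAt
  have hSc : Continuous S := continuous_iff_continuousAt.2 fun x => (hS x).continuousAt
  have mono : StrictMono S := strictMono_of_deriv_pos fun x => by rw [(hS x).deriv]; positivity
  have hpe : Periodic (fun x => rexp (φ x) / Z) (2 * π) := fun x => by simp only [hp x]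
  have per : Periodic (fun β => S β - β) (2 * π) := fun β => by
    have h1 := hpe.intervalIntegral_add_eq β 0
    have h2 := intervalIntegral.integral_add_adjacent_intervals (hc'.intervalIntegrable (μ := volume) 0 β)
      (hc'.intervalIntegrable β (β + 2 * π))
    have h3 := shift' (F := fun x => rexp (φ x)) fun x => by simp only [hp x]
    rw [zero_add, intervalIntegral.integral_div (a := 0)] at h1
    rw [← hZ, smul_eq_mul, eq_inv_mul_iff_mul_eq₀ (by positivity)] at h3
    simp only [hSd]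
    rw [← h2, h1, ← h3]
    field_simp; ring
  have surj : Surjective S := fun y => by
    have h : ∀ n : ℤ, S (n * (2 * π)) = n * (2 * π) := fun n => by
      have := per.int_mul n 0
      simp only [zero_add, sub_zero, hSd, intervalIntegral.integral_same] at this
      exact sub_eq_zero.1 this
    refine intermediate_value_univ (⌊y / (2 * π)⌋ * (2 * π)) ((⌊y / (2 * π)⌋ + 1 : ℤ) * (2 * π)) hSc ?_
    rw [h, h]
    have hπ : 0 < 2 * π := by positivity
    refine ⟨(le_div_iff₀ hπ).1 (Int.floor_le _), (div_le_iff₀ hπ).1 ?_⟩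
    push_cast; exact (Int.lt_floor_add_one _).le
  set e := mono.orderIsoOfSurjective S surj with he
  have h1 : ∀ s, S (e.symm s) = s := e.apply_symm_apply
  have ec : Continuous e.symm := e.symm.continuous
  refine ⟨e.symm, fun s => (rexp (φ (e.symm s)) / Z)⁻¹, ⟨fun s => ?_, ?_, fun s => by positivity,
    fun s => mono.injective ?_⟩, fun s => ?_⟩
  · exact HasDerivAt.of_local_left_inverse ec.continuousAt (hS _) (by positivity)
      (Eventually.of_forall h1)
  · exact (hc'.comp ec).inv₀ fun s => by simp only [Function.comp]; positivity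
  · have := per (e.symm s)
    simp only [h1] at this ⊢
    linarith
  · rw [Real.log_inv, Real.log_div (by positivity) Z0.ne', Real.log_exp]; ring

namespace Hyp

variable {f : ℂ → ℂ} {r ρ : ℝ} (H : Hyp f r ρ)
include H

theorem circ {θ θ' : ℝ → ℝ} (D : Diff θ θ') {τ : ℝ} (hτ : 0 ≤ τ) :
    τ * ‖∫ s, VV f r ρ (θ s) (θ s) ∂mu‖ ≤
      (√(1 + τ ^ 2) - 1) * -Real.log (1 - (r / ρ) ^ 2) + ∫ s, -Real.log (θ' s) ∂mu := by
  have h1 : 1 ≤ √(1 + τ ^ 2) := Real.le_sqrt_of_sq_le (by nlinarith)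
  have h2 := Real.sq_sqrt (show 0 ≤ 1 + τ ^ 2 by positivity)
  have h3 : τ ≤ √(1 + τ ^ 2) := Real.le_sqrt_of_sq_le (by nlinarith)
  have key := fun c => D.circle (V := VV f r ρ) H.cont_VV
    (fun β x => by simp only [VV, LL, aa, xi, xv, ee_two_pi]) (by positivity)
    (pow_lt_one₀ H.q_pos.le H.q_lt two_ne_zero)
    (fun j c hc => H.grunsky D.cont (cont_ps j) (cont_ps (-j)) hc) (c := c) hτ (sub_nonneg.2 h1)
  rcases hτ.eq_or_lt with e | e
  · exact key 1 one_pos (by linarith) (by linarith) (by linarith)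
  · refine key (τ / (√(1 + τ ^ 2) + 1)) (by positivity) ?_ (by linarith) (le_of_eq ?_)
    · rw [← mul_div_assoc, div_le_iff₀ (by positivity)]; nlinarith
    · field_simp; ring

theorem means (t : ℂ) : ∫ β, rexp (t * VV f r ρ β β).re ∂mu ≤
    (1 - (r / ρ) ^ 2) ^ (1 - √(1 + ‖t‖ ^ 2)) := by
  have hV : Continuous fun β => VV f r ρ β β := H.cont_VV.comp (f := fun β => (β, β)) (by fun_prop)
  have hφ : Continuous fun β => (t * VV f r ρ β β).re := by fun_prop
  obtain ⟨θ, θ', D, h⟩ := gibbs hφ fun β => by simp only [VV, LL, aa, xi, xv, kk, ee_two_pi]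
  have Z0 : 0 < ∫ β, rexp (t * VV f r ρ β β).re ∂mu := integral_exp_pos (intg (by fun_prop))
  have q1 : 0 < 1 - (r / ρ) ^ 2 := sub_pos.2 (pow_lt_one₀ H.q_pos.le H.q_lt two_ne_zero)
  have hθ := D.cont
  have hl : Continuous fun s => Real.log (θ' s) := D.hc.log fun s => (D.hp s).ne'
  have h1 := H.circ D (norm_nonneg t)
  have h2 : ∫ s, ((t * VV f r ρ (θ s) (θ s)).re + Real.log (θ' s)) ∂mu =
      Real.log (∫ β, rexp (t * VV f r ρ β β).re ∂mu) := by simp only [h]; simp
  have hW : Continuous fun s => t * VV f r ρ (θ s) (θ s) := continuous_const.mul (hV.comp hθ)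
  have h3 : ∫ s, (t * VV f r ρ (θ s) (θ s)).re ∂mu = (t * ∫ s, VV f r ρ (θ s) (θ s) ∂mu).re := by
    rw [← integral_const_mul, ← RCLike.re_to_complex, ← integral_re (intg hW)]; rfl
  have hW' : Continuous fun s => (t * VV f r ρ (θ s) (θ s)).re := continuous_re.comp hW
  rw [integral_add (intg hW') (intg hl), h3] at h2
  rw [← Real.log_le_log_iff Z0 (by positivity), Real.log_rpow q1, ← h2]
  have h4 := (re_le_norm (t * ∫ s, VV f r ρ (θ s) (θ s) ∂mu)).trans (norm_mul_le _ _)
  rw [integral_neg] at h1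
  linarith

end Hyp

/-- integral means of `z ^ 2 f' / f ^ 2` for real exponents -/
theorem means_real {f : ℂ → ℂ} (hf : DifferentiableOn ℂ f (ball 0 1)) (hi : InjOn f (ball 0 1))
    {r : ℝ} (h0 : 0 < r) (h1 : r < 1) (t : ℝ) :
    ∫ β, ‖deriv f (r * ee β) * deriv f 0 / dslope f 0 (r * ee β) ^ 2‖ ^ t ∂mu ≤
      (1 - r ^ 2) ^ (1 - √(1 + t ^ 2)) := by
  have hc : ContinuousAt (fun ρ : ℝ => (1 - (r / ρ) ^ 2) ^ (1 - √(1 + t ^ 2))) 1 :=
    ContinuousAt.rpow_const (by fun_prop (disch := simp)) (Or.inl (by simp; nlinarith))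
  have := hc.tendsto.mono_left (nhdsWithin_le_nhds (s := Iio 1))
  rw [div_one] at this
  refine ge_of_tendsto this ?_
  filter_upwards [Ioo_mem_nhdsLT h1] with ρ hρ
  have H : Hyp f r ρ := ⟨hf, hi, h0, hρ.1, hρ.2⟩
  have := H.means t
  rw [Complex.norm_real, Real.norm_eq_abs, sq_abs] at this
  refine le_of_eq_of_le ?_ this
  congr 1; ext β
  rw [← H.exp_VV, Complex.norm_exp, ← Real.exp_mul, re_ofReal_mul, mul_comm]

end Pool.Agent.MP_6e64bc_an.H80
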